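import Mathlib.CategoryTheory.Preadditive.Biproducts
import Pool.Agent.R905.Defs
import Pool.Agent.Y112.SR.Defs

/-!
# Degenerate morphisms between the motives of varieties: definitions
-/

set_option autoImplicit false

open CategoryTheory Limits MonoidalCategory
open Pool.Agent.Y112.SR Pool.Agent.R905

namespace Pool.Agent.V8H76.Dg

universe v u w

section

variable {C : Type u} [Category.{v} C] [Preadditive C] [HasBinaryBiproducts C]

/-- `Low V d M`: the object `M` is a finite direct sum of objects of `V e a` with `e < d` (and any
`a`). If `V e a` consists of the twisted motives `h(X)(a)`, `X` smooth projective of dimension `e`,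
these are the finite direct sums of twisted motives of varieties of dimension smaller than `d`. -/
inductive Low (V : ℕ → ℤ → C → Prop) (d : ℕ) : C → Prop
  | zero (M : C) (h : IsZero M) : Low V d M
  | add (M N P : C) (e : ℕ) (a : ℤ) (he : e < d) (hM : V e a M) (hN : Low V d N)
      (i : P ≅ M ⊞ N) : Low V d P

/-- The morphism `f` is degenerate, relative to the dimension `d`: it factors through a finite direct
sum of objects of `V e a` with `e < d`. -/
def Degenerate (V : ℕ → ℤ → C → Prop) (d : ℕ) {M N : C} (f : M ⟶ N) : Prop :=
  ∃ (L : C) (a : M ⟶ L) (b : L ⟶ N), Low V d L ∧ f = a ≫ b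

/-- The powers of an endomorphism. -/
def pw {M : C} (f : M ⟶ M) : ℕ → (M ⟶ M)
  | 0 => 𝟙 M
  | n + 1 => pw f n ≫ f

end

section

variable {C : Type u} [Category.{v} C] [Preadditive C] [HasBinaryBiproducts C]
  [MonoidalCategory C] [SymmetricCategory C] [Linear ℚ C]

/-- The formal properties of the classes `V d a` of the twisted Chow motives `h(X)(a)`, where `X` is
smooth projective over a field, each component of `X` having the dimension `d` (`X` need not be
connected, and may be empty). `h` is contravariant, a morphism from `h(X)(a)` to `h(Y)(b)` is a class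
of cycles of codimension `dim X + b - a` on `X × Y`.

* `sum`: disjoint unions.
* `unit`: the point.
* `tensor`: products.
* `small`: for `a < b` and `dim X = dim Y = d` a morphism from `h(X)(a)` to `h(Y)(b)` is a class of
  cycles of dimension `d + a - b < d`; it factors through the resolutions of the supports of these
  cycles (through alterations in positive characteristic).
* `curve`: the theorem of Kimura for varieties of dimension at most one. -/
structure IsVarieties (V : ℕ → ℤ → C → Prop) : Prop where
  sum : ∀ {d : ℕ} {a : ℤ} {M N : C}, V d a M → V d a N → V d a (M ⊞ N)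
  unit : V 0 0 (𝟙_ C)
  tensor : ∀ {d e : ℕ} {a b : ℤ} {M N : C}, V d a M → V e b N → V (d + e) (a + b) (M ⊗ N)
  small : ∀ {d : ℕ} {a b : ℤ} {M N : C}, V d a M → V d b N → a < b → ∀ f : M ⟶ N,
    Degenerate V d f
  curve : ∀ {d : ℕ} {a : ℤ} {M : C}, d ≤ 1 → V d a M → IsKimuraFinite M

variable {K : Type w} [Field K] (R : SuperRealisation C K) (V : ℕ → ℤ → C → Prop)

/-- The conjecture of Kimura. -/
def KimuraConjecture : Prop := ∀ (d : ℕ) (a : ℤ) (M : C), V d a M → IsKimuraFinite M

/-- The sign conjecture for all `M = h(X)(a)`, and the nilpotence, modulo degenerate morphisms, of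
the homologically trivial endomorphisms of `M`, `dim X ≥ 2`. -/
def SignAndNilpotent : Prop :=
  (∀ (d : ℕ) (a : ℤ) (M : C), V d a M → R.CPlus M) ∧
    ∀ (d : ℕ) (a : ℤ) (M : C), 2 ≤ d → V d a M → ∀ f : M ⟶ M, R.H.map f = 0 →
      ∃ n : ℕ, Degenerate V d (pw f n)

/-- The projector to the even part of the realisation of each `M = h(X)(a)` is the realisation of an
idempotent endomorphism of `M`, and for `dim X ≥ 2` the homologically trivial endomorphisms of `M`
which are idempotent modulo degenerate morphisms are degenerate. -/
def SplitAndNoPhantoms : Prop :=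
  (∀ (d : ℕ) (a : ℤ) (M : C), V d a M → ∃ p : M ⟶ M, p ≫ p = p ∧
    (2 : K) • R.H.map p = 𝟙 _ + R.par M) ∧
    ∀ (d : ℕ) (a : ℤ) (M : C), 2 ≤ d → V d a M → ∀ f : M ⟶ M, R.H.map f = 0 →
      Degenerate V d (f ≫ f - f) → Degenerate V d f

end

end Pool.Agent.V8H76.Dg
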