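import Mathlib.LinearAlgebra.Eigenspace.Basic
import Mathlib.Algebra.Polynomial.AlgebraMap
import Mathlib.CategoryTheory.Linear.Basic
import Mathlib.GroupTheory.Finiteness
import Pool.Agent.V8H76.Dg.Defs

/-!
# Frobenius, Weil-étale cohomology and degenerate correspondences: definitions
-/

set_option autoImplicit false

open CategoryTheory Limits MonoidalCategory Polynomial
open Pool.Agent.Y112.SR

namespace Pool.Agent.V8H76.Dg

universe v u w x y z

section

variable {C : Type u} [Category.{v} C] [Preadditive C] [Linear ℚ C]

/-- The value of a polynomial at an endomorphism. -/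
noncomputable def pol {S : C} (φ : S ⟶ S) (P : ℚ[X]) : S ⟶ S :=
  (aeval (show End S from φ) P : End S)

/-- `dim X` is the dimension of `X` and `h X a` the object `h(X)(a)`, where `X` runs through a set of
varieties, all components of `X` having the same dimension. -/
structure Varieties (C : Type u) where
  /-- the varieties -/
  Var : Type y
  /-- their dimension -/
  dim : Var → ℕ
  /-- the twisted motives `h(X)(a)` -/
  h : Var → ℤ → C

/-- The objects isomorphic to `h(X)(a)` for some `X` of dimension `d`. -/
def Varieties.V (D : Varieties.{u, y} C) (d : ℕ) (a : ℤ) (M : C) : Prop :=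
  ∃ X : D.Var, D.dim X = d ∧ Nonempty (M ≅ D.h X a)

end

section

variable {K : Type w} [Field K] {A B : Type w} [AddCommGroup A] [Module K A] [AddCommGroup B]
  [Module K B] {ι : Type v}

/-- `t` is in the generalised eigenspace of `F` for the eigenvalue `1`. -/
def GenFixed (F : A →ₗ[K] A) (t : A) : Prop := ∃ n : ℕ, ((F - 1 : Module.End K A) ^ n) t = 0

/-- The linear form `l` (with values in `B`) is in the generalised eigenspace of the transpose of `F` for
the eigenvalue `1`. -/
def GenFixedForm (F : A →ₗ[K] A) (l : A →ₗ[K] B) : Prop :=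
  ∃ n : ℕ, l ∘ₗ ((F - 1 : Module.End K A) ^ n) = 0

/-- `t` is a sum of elements of the images of the maps `f i`. -/
def InRanges (f : ι → B →ₗ[K] A) (t : A) : Prop := t ∈ ⨆ i, LinearMap.range (f i)

/-- `l` is a linear combination of the maps `g i`. -/
def InSpan (g : ι → A →ₗ[K] B) (l : A →ₗ[K] B) : Prop := l ∈ Submodule.span K (Set.range g)

end

section

variable {C : Type u} [Category.{v} C] [Preadditive C] [Linear ℚ C] [MonoidalCategory C]
  [SymmetricCategory C] {K : Type w} [Field K]

/-- The conjecture of Tate for `M`, in the strong form: the generalised eigenspace for the eigenvalue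
`1` of the Frobenius endomorphism `φ` is spanned by algebraic classes, in the realisation of `M` and in
its dual. For `M = h(X)(a)` these are the conjectures for the codimensions `a` and `dim X - a`: `φ` is
`q ^ (-a)` times the Frobenius endomorphism of `X`. -/
def Tate (R : SuperRealisation C K) {M : C} (φ : M ⟶ M) : Prop :=
  (∀ t : R.H.obj M, GenFixed (R.H.map φ).hom t →
    InRanges (fun f : 𝟙_ C ⟶ M => (R.H.map f).hom) t) ∧
  ∀ l : R.H.obj M →ₗ[K] R.H.obj (𝟙_ C), GenFixedForm (R.H.map φ).hom l →
    InSpan (fun g : M ⟶ 𝟙_ C => (R.H.map g).hom) l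

/-- Homologically trivial cycles vanish: for `M = h(X)(a)` these are the cycles of codimension `a` on
`X`, with rational coefficients. -/
def Rational (R : SuperRealisation C K) (M : C) : Prop :=
  ∀ f : 𝟙_ C ⟶ M, R.H.map f = 0 → f = 0

/-- The formal properties of the motives of the smooth projective varieties over a finite field and
of the Frobenius endomorphism `φ`, which is a natural endomorphism of the identity functor, equal to
`q ^ (-a)` times the pull-back by the Frobenius endomorphism on `h(X)(a)`.

* `point`: the unit object is the motive of the point.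
* `tensor`: products.
* `dual`: Poincaré duality, the dual of `h(X)(a)` is `h(X)(dim X - a)`.
* `unit`: `φ` is the identity on the unit object.
* `rational`: `φ` has on `R(h(X)(a))` an annihilating polynomial with rational coefficients (Deligne).
* `curve`: the conjecture of Tate and the equality of rational and homological equivalence hold for
  varieties of dimension at most one (divisors of degree zero on a curve over a finite field are
  torsion). -/
structure IsFrobenius (D : Varieties.{u, y} C) [RightRigidCategory C]
    (R : SuperRealisation C K) (φ : 𝟭 C ⟶ 𝟭 C) : Prop where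
  point : D.V 0 0 (𝟙_ C)
  tensor : ∀ {d e : ℕ} {a b : ℤ} {M N : C}, D.V d a M → D.V e b N → D.V (d + e) (a + b) (M ⊗ N)
  dual : ∀ (X : D.Var) (a : ℤ), D.V (D.dim X) (D.dim X - a) ((D.h X a)ᘁ)
  unit : φ.app (𝟙_ C) = 𝟙 _
  rational : ∀ (X : D.Var) (a : ℤ), ∃ χ : ℚ[X], χ ≠ 0 ∧ R.H.map (pol (φ.app (D.h X a)) χ) = 0
  curve : ∀ (X : D.Var) (a : ℤ), D.dim X ≤ 1 → Tate R (φ.app (D.h X a)) ∧ Rational R (D.h X a)

/-- The functors of the higher Chow groups: `H j` sends `h(X)(a)` to `CH^a(X, j)` with rational
coefficients.

* `weight`: the Frobenius endomorphism of `X` acts on `CH^a(X, j)` as `q ^ a` (Soulé, Geisser), so that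
  `φ` acts as the identity.
* `curve`: the higher Chow groups of varieties of dimension at most one are torsion for `j ≥ 1`
  (Quillen, Harder). -/
structure IsHigherChow (D : Varieties.{u, y} C) (φ : 𝟭 C ⟶ 𝟭 C) (H : ℕ → C ⥤ ModuleCat.{x} ℚ) :
    Prop where
  additive : ∀ j, (H j).Additive
  weight : ∀ (j : ℕ) (X : D.Var) (a : ℤ), (H j).map (φ.app (D.h X a)) = 𝟙 _
  curve : ∀ (j : ℕ) (X : D.Var) (a : ℤ), 1 ≤ j → D.dim X ≤ 1 → Subsingleton ((H j).obj (D.h X a))

/-- The three conjectures for `M`: the strong conjecture of Tate, the equality of rational and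
homological equivalence, and the conjecture of Parshin. -/
def Fine (R : SuperRealisation C K) (φ : 𝟭 C ⟶ 𝟭 C) (H : ℕ → C ⥤ ModuleCat.{x} ℚ) (M : C) : Prop :=
  (Tate R (φ.app M) ∧ Rational R M) ∧ ∀ j : ℕ, 1 ≤ j → Subsingleton ((H j).obj M)

/-- Relations between the Weil-étale motivic cohomology groups `W X n i = H^i_W(X, ℤ(n))` and cycles
which are theorems of Geisser. `fg`: they are finitely generated if the strong conjecture of Tate,
the equality of rational and homological equivalence and the conjecture of Parshin hold for `X`.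
`cycles`: if they are finitely generated, then the strong conjecture of Tate and the equality of
rational and homological equivalence hold for `X`. -/
structure IsWeilEtale (D : Varieties.{u, y} C) (R : SuperRealisation C K) (φ : 𝟭 C ⟶ 𝟭 C)
    (H : ℕ → C ⥤ ModuleCat.{x} ℚ) (W : D.Var → ℕ → ℤ → Type z) [∀ X n i, AddCommGroup (W X n i)] :
    Prop where
  fg : ∀ X : D.Var, (∀ a : ℤ, Fine R φ H (D.h X a)) → ∀ (n : ℕ) (i : ℤ), AddGroup.FG (W X n i)
  cycles : ∀ X : D.Var, (∀ (n : ℕ) (i : ℤ), AddGroup.FG (W X n i)) →
    ∀ a : ℤ, Tate R (φ.app (D.h X a)) ∧ Rational R (D.h X a)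

variable (D : Varieties.{u, y} C) (R : SuperRealisation C K) (φ : 𝟭 C ⟶ 𝟭 C)

/-- The conjecture of Lichtenbaum. -/
def Lichtenbaum (W : D.Var → ℕ → ℤ → Type z) [∀ X n i, AddCommGroup (W X n i)] : Prop :=
  ∀ (X : D.Var) (n : ℕ) (i : ℤ), AddGroup.FG (W X n i)

/-- The conjecture of Lichtenbaum for varieties of dimension at most `d`. -/
def LichtenbaumUpTo (W : D.Var → ℕ → ℤ → Type z) [∀ X n i, AddCommGroup (W X n i)] (d : ℕ) : Prop :=
  ∀ X : D.Var, D.dim X ≤ d → ∀ (n : ℕ) (i : ℤ), AddGroup.FG (W X n i)

/-- The strong conjecture of Tate and the equality of rational and homological equivalence for all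
cycles on `X`. -/
def TateAndRational (X : D.Var) : Prop :=
  ∀ a : ℤ, Tate R (φ.app (D.h X a)) ∧ Rational R (D.h X a)

/-- The strong conjecture of Tate and the equality of rational and homological equivalence for all
`X`. -/
def AllTateAndRational : Prop := ∀ X : D.Var, TateAndRational D R φ X

variable [HasBinaryBiproducts C]

/-- The homologically trivial endomorphisms of `h(X)(a)` are nilpotent modulo degenerate ones. -/
def NilpotentModDegenerate (X : D.Var) : Prop :=
  ∀ (a : ℤ) (f : D.h X a ⟶ D.h X a), R.H.map f = 0 → ∃ n : ℕ, Degenerate D.V (D.dim X) (pw f n)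

/-- The strong conjecture of Tate for all `X`, and nilpotence modulo degenerate endomorphisms for all
`X` of dimension at least two. -/
def TateAndNilpotent : Prop :=
  ∀ X : D.Var, (∀ a, Tate R (φ.app (D.h X a))) ∧ (2 ≤ D.dim X → NilpotentModDegenerate D R X)

/-- For all `a` the Frobenius endomorphism of `h(X)(a)` satisfies, modulo degenerate endomorphisms, an
equation `P(φ) = 0`, where `P` is a polynomial with rational coefficients which does not have the root
`1`. -/
def FrobeniusEquation (X : D.Var) : Prop :=
  ∀ a : ℤ, ∃ P : ℚ[X], P.eval 1 ≠ 0 ∧ Degenerate D.V (D.dim X) (pol (φ.app (D.h X a)) P)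

/-- The equations of the Frobenius endomorphisms for all `X` with `k ≤ dim X`. -/
def Equations (k : ℕ) : Prop := ∀ X : D.Var, k ≤ D.dim X → FrobeniusEquation D φ X

/-- The equations of the Frobenius endomorphisms for all `X` with `k ≤ dim X ≤ d`. -/
def EquationsUpTo (k d : ℕ) : Prop :=
  ∀ X : D.Var, k ≤ D.dim X → D.dim X ≤ d → FrobeniusEquation D φ X

end

end Pool.Agent.V8H76.Dg
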