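import Pool.Agent.V8H76.Dg.Main

/-!
# The conjecture of Kimura and degenerate morphisms
-/

set_option autoImplicit false
set_option linter.unusedSectionVars false

open CategoryTheory Limits MonoidalCategory
open Pool.Agent.Y112.SR Pool.Agent.Y112.KD Pool.Agent.R905 Pool.Agent.N64.AF Pool.Agent.N861.AF

namespace Pool.Agent.V8H76.Dg

universe v u w

section

variable {C : Type u} [Category.{v} C] [Preadditive C] [HasBinaryBiproducts C]
  {V : ℕ → ℤ → C → Prop} {d : ℕ} {M N P Q : C} {T : ∀ {M N : C}, (M ⟶ N) → Prop}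

lemma exists_isZero [IsIdempotentComplete C] (M : C) : ∃ Z : C, IsZero Z := by
  obtain ⟨Z, i, r, h1, h2⟩ := IsIdempotentComplete.idempotents_split M (0 : M ⟶ M) (by simp)
  refine ⟨Z, (IsZero.iff_id_eq_zero Z).2 ?_⟩
  have h3 : 𝟙 Z = i ≫ (r ≫ i) ≫ r := by rw [Category.assoc, h1, Category.comp_id, h1]
  rw [h3, h2]
  simp

lemma low_of_v (hz : ∃ Z : C, IsZero Z) {a : ℤ} (h : V d a M) : Low V (d + 1) M := by
  obtain ⟨Z, hZ⟩ := hz
  exact Low.add M Z M d a (Nat.lt_succ_self d) h (Low.zero Z hZ) (isoBiprodZero hZ)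

lemma degenerate_zero (hz : ∃ Z : C, IsZero Z) : Degenerate V d (0 : M ⟶ N) := by
  obtain ⟨Z, hZ⟩ := hz
  exact ⟨Z, 0, 0, Low.zero Z hZ, by rw [comp_zero]⟩

lemma Srt.nilD (hz : ∃ Z : C, IsZero Z)
    (hT : ∀ {M N P Q : C} (f : M ⟶ N) (a : P ⟶ M) (b : N ⟶ Q), T f → T (a ≫ f ≫ b))
    (hsmall : ∀ {a b : ℤ} {M N : C}, V d a M → V d b N → a < b → ∀ f : M ⟶ N, Degenerate V d f)
    (h : ∀ {a : ℤ} {M : C}, V d a M → NilD T V d M) {lb : ℤ} (hM : Srt V d lb M) :
    NilD T V d M := by
  induction hM with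
  | low lb M h1 => exact fun f _ => ⟨0, Degenerate.of_low h1 _⟩
  | cons lb a hlb M N P hM hN i ih =>
    exact (NilD.sum hz hT (h hM) ih (fun f => Srt.degenerate hsmall hM hN (Int.lt_succ a) f)).iso
      hT i

lemma Srt.idD (hz : ∃ Z : C, IsZero Z)
    (hT : ∀ {M N P Q : C} (f : M ⟶ N) (a : P ⟶ M) (b : N ⟶ Q), T f → T (a ≫ f ≫ b))
    (hsmall : ∀ {a b : ℤ} {M N : C}, V d a M → V d b N → a < b → ∀ f : M ⟶ N, Degenerate V d f)
    (h : ∀ {a : ℤ} {M : C}, V d a M → IdD T V d M) {lb : ℤ} (hM : Srt V d lb M) :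
    IdD T V d M := by
  induction hM with
  | low lb M h1 => exact fun f _ _ => Degenerate.of_low h1 _
  | cons lb a hlb M N P hM hN i ih =>
    exact (IdD.sum hz hT (h hM) ih (fun f => Srt.degenerate hsmall hM hN (Int.lt_succ a) f)).iso
      hT i

/-- Idempotent modulo degenerate morphisms and nilpotent implies degenerate. -/
lemma degenerate_of_nil {f : M ⟶ M} (h : Degenerate V d (f ≫ f - f)) {n : ℕ}
    (hn : Degenerate V d (pw f n)) : Degenerate V d f := by
  have key : ∀ k : ℕ, Degenerate V d (pw f (k + 1) - f) → Degenerate V d (pw f (k + 2) - f) := by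
    intro k hk
    have e1 : pw f (k + 2) - f = (pw f (k + 1) - f) ≫ f + (f ≫ f - f) := by
      change pw f (k + 1) ≫ f - f = _
      rw [Preadditive.sub_comp]
      abel
    rw [e1]
    exact (hk.comp_right f).add h
  have h0 : Degenerate V d (pw f (0 + 2) - f) := by
    have e1 : pw f (0 + 2) - f = f ≫ f - f := by
      change (𝟙 _ ≫ f) ≫ f - f = _
      rw [Category.id_comp]
    rw [e1]
    exact h
  have h1 : ∀ k : ℕ, Degenerate V d (pw f (k + 2) - f) := by
    intro k
    induction k with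
    | zero => exact h0
    | succ k ih => exact key (k + 1) ih
  have h2 := (h1 n).neg.add (pw_succ_deg hn 2)
  have h3 : -(pw f (n + 2) - f) + pw f (n + 2) = f := by abel
  rwa [h3] at h2

end

section

variable {C : Type u} [Category.{v} C] [Preadditive C] [Linear ℚ C] [MonoidalCategory C]
  [MonoidalPreadditive C] [MonoidalLinear ℚ C] [SymmetricCategory C] [HasBinaryBiproducts C]
  {K : Type w} [Field K] {R : SuperRealisation C K} {V : ℕ → ℤ → C → Prop} {d : ℕ} {M N : C}

lemma map_zero_comp {M N P Q : C} (f : M ⟶ N) (a : P ⟶ M) (b : N ⟶ Q) (h : R.H.map f = 0) :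
    R.H.map (a ≫ f ≫ b) = 0 := by
  rw [Functor.map_comp, Functor.map_comp, h, zero_comp, comp_zero]

/-- Nilpotence modulo degenerate morphisms in all dimensions implies nilpotence. -/
theorem homNil_of (hz : ∃ Z : C, IsZero Z)
    (hsum : ∀ {d : ℕ} {a : ℤ} {M N : C}, V d a M → V d a N → V d a (M ⊞ N))
    (hsmall : ∀ {d : ℕ} {a b : ℤ} {M N : C}, V d a M → V d b N → a < b → ∀ f : M ⟶ N,
      Degenerate V d f)
    (h : ∀ {d : ℕ} {a : ℤ} {M : C}, V d a M → NilD (fun f => R.H.map f = 0) V d M) :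
    ∀ (d : ℕ) (M : C), Low V d M → HomNil R M := by
  intro d
  induction d with
  | zero =>
    intro M hM f hf
    cases hM with
    | zero _ h0 => exact ⟨1, by rw [pow_one]; exact h0.eq_of_src _ _⟩
    | add A B _ e a he hA hB j => exact absurd he (Nat.not_lt_zero e)
  | succ d ih =>
    intro M hM f hf
    obtain ⟨lb, h1⟩ := exists_srt hz hsum hM
    have h2 : NilD (fun f => R.H.map f = 0) V d M :=
      h1.nilD hz (fun f a b h => map_zero_comp f a b h) hsmall h
    obtain ⟨n, hn⟩ := h2 (f : M ⟶ M) hf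
    obtain ⟨L, a, b, hL, e⟩ := pw_succ_deg hn 1
    have h3 : R.H.map (pw (f : M ⟶ M) (n + 1)) = 0 := by
      change R.H.map (pw (f : M ⟶ M) n ≫ (f : M ⟶ M)) = 0
      rw [Functor.map_comp, hf, comp_zero]
    rw [e] at h3
    let G : End L := b ≫ a
    have hG : R.H.map ((G * G : End L) : L ⟶ L) = 0 := by
      have e1 : ((G * G : End L) : L ⟶ L) = b ≫ (a ≫ b) ≫ a := by
        change (b ≫ a) ≫ b ≫ a = _
        simp only [Category.assoc]
      rw [e1]
      exact map_zero_comp _ _ _ h3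
    obtain ⟨k, hk⟩ := ih L hL (G * G) hG
    have h4 : ∀ j : ℕ, ((f ^ (n + 1) : End M) ^ (j + 1) : End M) =
        (a ≫ ((G ^ j : End L) : L ⟶ L) ≫ b : M ⟶ M) := by
      intro j
      induction j with
      | zero =>
        rw [zero_add, pow_one, pow_zero]
        change _ = a ≫ 𝟙 L ≫ b
        rw [Category.id_comp, ← e, pw_eq]
      | succ j ihj =>
        rw [pow_succ', ihj, pow_succ' G j]
        change (a ≫ ((G ^ j : End L) : L ⟶ L) ≫ b) ≫ ((f ^ (n + 1) : End M) : M ⟶ M) =
          a ≫ (((G ^ j : End L) : L ⟶ L) ≫ b ≫ a) ≫ b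
        have e2 : ((f ^ (n + 1) : End M) : M ⟶ M) = a ≫ b := by rw [← e, pw_eq]
        rw [e2]
        simp only [Category.assoc]
    refine ⟨(n + 1) * (2 * k + 1), ?_⟩
    rw [pow_mul, h4, pow_mul, pow_two, hk]
    change a ≫ (0 : L ⟶ L) ≫ b = 0
    simp

/-- If homologically trivial endomorphisms which are idempotent modulo degenerate morphisms are
degenerate, there are no homologically trivial idempotents. -/
theorem noPhantom_of (hz : ∃ Z : C, IsZero Z)
    (hsum : ∀ {d : ℕ} {a : ℤ} {M N : C}, V d a M → V d a N → V d a (M ⊞ N))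
    (hsmall : ∀ {d : ℕ} {a b : ℤ} {M N : C}, V d a M → V d b N → a < b → ∀ f : M ⟶ N,
      Degenerate V d f)
    (h : ∀ {d : ℕ} {a : ℤ} {M : C}, V d a M → IdD (fun f => R.H.map f = 0) V d M) :
    ∀ (d : ℕ) (M : C), Low V d M → ∀ e : M ⟶ M, e ≫ e = e → R.H.map e = 0 → e = 0 := by
  intro d
  induction d with
  | zero =>
    intro M hM e _ _
    cases hM with
    | zero _ h0 => exact h0.eq_of_src _ _
    | add A B _ e a he hA hB j => exact absurd he (Nat.not_lt_zero _)
  | succ d ih =>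
    intro M hM e he he0
    obtain ⟨lb, h1⟩ := exists_srt hz hsum hM
    have h2 : IdD (fun f => R.H.map f = 0) V d M :=
      h1.idD hz (fun f a b h => map_zero_comp f a b h) hsmall h
    obtain ⟨L, a, b, hL, e1⟩ := h2 e he0 (by
      rw [he, sub_self]
      exact degenerate_zero hz)
    have h3 : b ≫ e ≫ a = 0 := by
      refine ih L hL _ ?_ (map_zero_comp _ _ _ he0)
      have h4 : (b ≫ e ≫ a) ≫ b ≫ e ≫ a = b ≫ (e ≫ (a ≫ b) ≫ e) ≫ a := by
        simp only [Category.assoc]
      rw [h4, ← e1, he, he]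
    have h5 : e = a ≫ (b ≫ e ≫ a) ≫ b := by
      have h6 : a ≫ (b ≫ e ≫ a) ≫ b = (a ≫ b) ≫ e ≫ (a ≫ b) := by
        simp only [Category.assoc]
      rw [h6, ← e1, he, he]
    rw [h5, h3]
    simp

variable [RightRigidCategory C] [IsIdempotentComplete C] [Algebra ℚ K]

omit [HasBinaryBiproducts C] in
lemma unitQ_of (hR : IsReal ℚ R) : UnitQ C := by
  refine ⟨hR.unit, fun h => ?_⟩
  have h1 := bt_unit R
  have h2 : 𝟙 (R.H.obj (𝟙_ C)) = 0 := by
    rw [← CategoryTheory.Functor.map_id, h, Functor.map_zero]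
  have h3 : IsZero (R.H.obj (𝟙_ C)) := (IsZero.iff_id_eq_zero _).2 h2
  have h4 : Subsingleton (R.H.obj (𝟙_ C)) := ModuleCat.subsingleton_of_isZero h3
  unfold bt at h1
  rw [Module.finrank_zero_of_subsingleton] at h1
  exact zero_ne_one h1

lemma v_tp (hV : IsVarieties V) {a : ℤ} (hM : V d a M) (n : ℕ) : V (n * d) (n * a) (tp M n) := by
  induction n with
  | zero =>
    rw [Nat.zero_mul, Nat.cast_zero, zero_mul]
    exact hV.unit
  | succ n ih =>
    have h1 := hV.tensor ih hM
    rw [← Nat.succ_mul] at h1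
    rw [show ((n + 1 : ℕ) : ℤ) * a = n * a + a by push_cast; ring]
    exact h1

/-- An idempotent which realises the even projector. -/
lemma kimura_of_noPhantom (hR : IsReal ℚ R) (hM : ∃ p : M ⟶ M, p ≫ p = p ∧
      (2 : K) • R.H.map p = 𝟙 _ + R.par M)
    (hn : ∀ (n : ℕ) (e : tp M n ⟶ tp M n), e ≫ e = e → R.H.map e = 0 → e = 0) :
    IsKimuraFinite M := by
  have hc := R_charZero R
  have hU := unitQ_of hR
  have h2 : (2 : K) ≠ 0 := two_ne_zero
  obtain ⟨e, he1, hf⟩ := hM
  have he' : (𝟙 M - e) ≫ (𝟙 M - e) = 𝟙 M - e := by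
    rw [Preadditive.sub_comp, Preadditive.comp_sub, Preadditive.comp_sub, he1]
    simp
  obtain ⟨E, i, r, h1, h2'⟩ := IsIdempotentComplete.idempotents_split M e he1
  obtain ⟨O, i', r', h3, h4⟩ := IsIdempotentComplete.idempotents_split M (𝟙 M - e) he'
  have hpar : R.par M = (2 : K) • R.H.map (e : M ⟶ M) - 𝟙 _ := by
    rw [hf]
    simp
  have hE : R.par E = (1 : K) • 𝟙 _ := by
    have e1 : R.H.map i ≫ R.par M ≫ R.H.map r = R.par E := by
      rw [← Category.assoc, R.par_natural, Category.assoc, ← Functor.map_comp, h1]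
      simp
    rw [← e1, hpar, ← h2', Preadditive.sub_comp, Preadditive.comp_sub, Linear.smul_comp,
      Linear.comp_smul, Category.id_comp, ← Functor.map_comp, ← Functor.map_comp,
      ← Functor.map_comp]
    have e2 : i ≫ (r ≫ i) ≫ r = 𝟙 E := by
      rw [Category.assoc, reassoc_of% h1, h1]
    rw [e2, h1, CategoryTheory.Functor.map_id]
    module
  have hO : R.par O = (-1 : K) • 𝟙 _ := by
    have e1 : R.H.map i' ≫ R.par M ≫ R.H.map r' = R.par O := by
      rw [← Category.assoc, R.par_natural, Category.assoc, ← Functor.map_comp, h3]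
      simp
    have e3 : (e : M ⟶ M) = 𝟙 M - r' ≫ i' := by rw [h4]; abel
    rw [← e1, hpar, Preadditive.sub_comp, Preadditive.comp_sub, Linear.smul_comp,
      Linear.comp_smul, Category.id_comp, ← Functor.map_comp, ← Functor.map_comp,
      ← Functor.map_comp]
    have e2 : i' ≫ (e : M ⟶ M) ≫ r' = 0 := by
      rw [e3, Preadditive.sub_comp, Preadditive.comp_sub, Category.id_comp, h3, Category.assoc,
        reassoc_of% h3, h3, sub_self]
    rw [e2, h3, CategoryTheory.Functor.map_id, Functor.map_zero]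
    module
  have key : ∀ (P : C) (i : P ⟶ M) (r : M ⟶ P), i ≫ r = 𝟙 P → ∀ δ : ℚ, δ * δ = 1 →
      R.par P = (δ : K) • 𝟙 _ → ∃ n, asym (-δ) P n = 0 := by
    intro P i r hir δ hδ hP
    refine ⟨Module.finrank K (R.H.obj P) + 1, ?_⟩
    have h5 := map_asym_zero R hU δ hδ hP
    have hη : (-δ) * (-δ) = 1 := by linear_combination hδ
    have h6 := asym_idem hη P (Module.finrank K (R.H.obj P) + 1)
    set n := Module.finrank K (R.H.obj P) + 1 with hn'
    have h7 : tpm i n ≫ tpm r n = 𝟙 _ := by rw [tpm_comp, hir, tpm_id]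
    have h8 : tpm r n ≫ asym (-δ) P n ≫ tpm i n = 0 := by
      refine hn n _ ?_ (map_zero_comp _ _ _ h5)
      simp only [Category.assoc]
      rw [reassoc_of% h7, reassoc_of% h6]
    have h9 : asym (-δ) P n = tpm i n ≫ (tpm r n ≫ asym (-δ) P n ≫ tpm i n) ≫ tpm r n := by
      simp only [Category.assoc]
      rw [reassoc_of% h7, h7, Category.comp_id]
    rw [h9, h8]
    simp
  obtain ⟨n, hn1⟩ := key E i r h1 1 (by norm_num) (by rw [hE]; norm_num)
  obtain ⟨m, hm⟩ := key O i' r' h3 (-1) (by norm_num) (by rw [hO]; norm_num)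
  rw [neg_neg] at hm
  exact (isKimuraFinite_iff M).2 ⟨E, O, i, r, i', r', h1, h3, by rw [h2', h4]; abel, ⟨n, hn1⟩,
    m, hm⟩

/-- A Kimura finite object has an idempotent realising the even projector. -/
lemma exists_even {M : C} (h : IsKimuraFinite M) : ∃ p : M ⟶ M, p ≫ p = p ∧
    (2 : K) • R.H.map p = 𝟙 _ + R.par M := by
  obtain ⟨E, O, i, r, i', r', h1, h3, h5, ⟨n, hn⟩, m, hm⟩ := (isKimuraFinite_iff M).1 h
  obtain ⟨h6, h7⟩ := map_proj R i r i' r' hn hm
  refine ⟨r ≫ i, by rw [Category.assoc, reassoc_of% h1], ?_⟩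
  have h8 : R.par M = R.H.map (r ≫ i) - R.H.map (r' ≫ i') := by
    calc R.par M = R.H.map (r ≫ i + r' ≫ i') ≫ R.par M := by rw [h5]; simp
      _ = _ := by rw [Functor.map_add, Preadditive.add_comp, h6, h7, sub_eq_add_neg]
  have h9 : 𝟙 (R.H.obj M) = R.H.map (r ≫ i) + R.H.map (r' ≫ i') := by
    rw [← Functor.map_add, h5, CategoryTheory.Functor.map_id]
  rw [h8, h9, two_smul]
  abel

/-- The conjecture of Kimura, nilpotence modulo degenerate morphisms, and phantoms. -/
theorem kimura_tfae (hR : IsReal ℚ R) (hV : IsVarieties V) :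
    [KimuraConjecture V, SignAndNilpotent R V, SplitAndNoPhantoms R V].TFAE := by
  have hz : ∃ Z : C, IsZero Z := exists_isZero (𝟙_ C)
  have hU := unitQ_of hR
  have hnil : ∀ {d : ℕ} {a : ℤ} {M : C}, IsKimuraFinite M →
      NilD (fun f => R.H.map f = 0) V d M := by
    intro d a M hM f hf
    obtain ⟨n, hn⟩ := hM.homNil R hU f hf
    refine ⟨n, ?_⟩
    rw [pw_eq]
    have h1 : ((show End M from f) ^ n : End M) = 0 := hn
    rw [h1]
    exact degenerate_zero hz
  tfae_have 1 → 2 := by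
    intro h
    exact ⟨fun d a M hM => (h d a M hM).cplus R, fun d a M _ hM f hf =>
      hnil (a := a) (h d a M hM) f hf⟩
  tfae_have 2 → 1 := by
    rintro ⟨h1, h2⟩ d a M hM
    have h3 : ∀ {d : ℕ} {a : ℤ} {M : C}, V d a M → NilD (fun f => R.H.map f = 0) V d M := by
      intro d a M hM
      by_cases hd : 2 ≤ d
      · exact fun f hf => h2 d a M hd hM f hf
      · exact hnil (a := a) (hV.curve (by omega) hM)
    have h4 := homNil_of (R := R) (V := V) hz (fun h h' => hV.sum h h') (fun h h' hab f => hV.small h h' hab f) (fun h => h3 h)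
    exact kimura_of_nil hR (h1 d a M hM) fun n y hy =>
      h4 _ _ (low_of_v hz (v_tp hV hM n)) y hy
  tfae_have 1 → 3 := by
    intro h
    refine ⟨fun d a M hM => exists_even (h d a M hM), fun d a M _ hM f hf hff => ?_⟩
    obtain ⟨n, hn⟩ := hnil (d := d) (a := a) (h d a M hM) f hf
    exact degenerate_of_nil hff hn
  tfae_have 3 → 1 := by
    rintro ⟨h1, h2⟩ d a M hM
    have h3 : ∀ {d : ℕ} {a : ℤ} {M : C}, V d a M → IdD (fun f => R.H.map f = 0) V d M := by
      intro d a M hM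
      by_cases hd : 2 ≤ d
      · exact fun f hf hff => h2 d a M hd hM f hf hff
      · intro f hf hff
        obtain ⟨n, hn⟩ := hnil (d := d) (a := a) (hV.curve (by omega) hM) f hf
        exact degenerate_of_nil hff hn
    have h4 := noPhantom_of (R := R) (V := V) hz (fun h h' => hV.sum h h') (fun h h' hab f => hV.small h h' hab f) (fun h => h3 h)
    exact kimura_of_noPhantom hR (h1 d a M hM) fun n e he he0 =>
      h4 _ _ (low_of_v hz (v_tp hV hM n)) e he he0
  tfae_finish

end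

end Pool.Agent.V8H76.Dg
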