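import Pool.Agent.V8H76.Dg.FrDefs
import Pool.Agent.V8H76.Dg.Thm
import Pool.Agent.V8H87.GG.Parshin

/-!
# Tate classes and degenerate correspondences: lemmas
-/

set_option autoImplicit false
set_option linter.unusedSectionVars false

open CategoryTheory Limits MonoidalCategory Polynomial
open Pool.Agent.Y112.SR Pool.Agent.Y112.KD Pool.Agent.R905 Pool.Agent.N64.AF
open Pool.Agent.Y116.MT (tr)

namespace Pool.Agent.V8H76.Dg

universe v u w x y z

section

variable {C : Type u} [Category.{v} C] [Preadditive C] [Linear ℚ C]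

lemma pol_X {S : C} (φ : S ⟶ S) : pol φ X = φ := by
  unfold pol
  rw [aeval_X]

lemma pol_add {S : C} (φ : S ⟶ S) (P Q : ℚ[X]) : pol φ (P + Q) = pol φ P + pol φ Q := by
  unfold pol
  rw [map_add]

lemma pol_mul {S : C} (φ : S ⟶ S) (P Q : ℚ[X]) : pol φ (P * Q) = pol φ Q ≫ pol φ P := by
  unfold pol
  rw [map_mul, End.mul_def]

lemma pol_one {S : C} (φ : S ⟶ S) : pol φ 1 = 𝟙 S := by
  unfold pol
  rw [map_one]
  rfl

lemma pol_C {S : C} (φ : S ⟶ S) (c : ℚ) : pol φ (Polynomial.C c) = c • 𝟙 S := by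
  unfold pol
  rw [aeval_C, Algebra.algebraMap_eq_smul_one]
  rfl

lemma pol_pow {S : C} (φ : S ⟶ S) (P : ℚ[X]) (n : ℕ) : pol φ (P ^ n) = pw (pol φ P) n := by
  induction n with
  | zero => rw [pow_zero, pol_one]; rfl
  | succ n ih =>
    rw [pow_succ', pol_mul, ih]
    rfl

/-- Polynomials commute with morphisms which intertwine. -/
lemma comp_pol {S T : C} {φ : S ⟶ S} {ψ : T ⟶ T} {u : S ⟶ T} (h : u ≫ ψ = φ ≫ u) (P : ℚ[X]) :
    u ≫ pol ψ P = pol φ P ≫ u := by
  induction P using Polynomial.induction_on' with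
  | add p q hp hq => rw [pol_add, pol_add, Preadditive.comp_add, hp, hq, Preadditive.add_comp]
  | monomial n a =>
    have h1 : ∀ n : ℕ, u ≫ pol ψ (X ^ n) = pol φ (X ^ n) ≫ u := by
      intro n
      induction n with
      | zero => rw [pow_zero, pol_one, pol_one, Category.comp_id, Category.id_comp]
      | succ n ih =>
        rw [pow_succ', pol_mul, pol_mul, pol_X, pol_X, ← Category.assoc, ih, Category.assoc, h,
          Category.assoc]
    rw [← C_mul_X_pow_eq_monomial, pol_mul, pol_mul, pol_C, pol_C]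
    simp only [Linear.comp_smul, Linear.smul_comp, Category.comp_id, h1]

end

section

variable {C : Type u} [Category.{v} C] [Preadditive C] [Linear ℚ C] [MonoidalCategory C]
  [MonoidalPreadditive C] [MonoidalLinear ℚ C] [SymmetricCategory C] [RightRigidCategory C]
  {K : Type w} [Field K] [Algebra ℚ K] (R : SuperRealisation C K)

/-- The operator `φ - 1`. -/
noncomputable abbrev dl {M : C} (φ : M ⟶ M) : Module.End K (R.H.obj M) := (R.H.map φ).hom - 1

/-- The generalised eigenspace for the eigenvalue one. -/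
abbrev E1 {M : C} (φ : M ⟶ M) (t : R.H.obj M) : Prop := GenFixed (R.H.map φ).hom t

/-- The span of the algebraic classes. -/
noncomputable abbrev Alg (M : C) : Submodule K (R.H.obj M) :=
  ⨆ f : 𝟙_ C ⟶ M, LinearMap.range (R.H.map f).hom

/-- The span of the algebraic functionals. -/
noncomputable abbrev Alg' (M : C) : Submodule K (R.H.obj M →ₗ[K] R.H.obj (𝟙_ C)) :=
  Submodule.span K (Set.range fun g : M ⟶ 𝟙_ C => (R.H.map g).hom)

lemma map_comp_apply {M N P : C} (f : M ⟶ N) (g : N ⟶ P) (t : R.H.obj M) :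
    (R.H.map (f ≫ g)).hom t = (R.H.map g).hom ((R.H.map f).hom t) := by
  rw [Functor.map_comp, ModuleCat.hom_comp]
  rfl

lemma map_comp_hom {M N P : C} (f : M ⟶ N) (g : N ⟶ P) :
    (R.H.map (f ≫ g)).hom = (R.H.map g).hom ∘ₗ (R.H.map f).hom := by
  rw [Functor.map_comp, ModuleCat.hom_comp]

lemma R_pol {S : C} (φ : S ⟶ S) (P : ℚ[X]) : (R.H.map (pol φ P)).hom =
    aeval (R.H.map φ).hom (P.map (algebraMap ℚ K)) :=
  Pool.Agent.V8H87.GG.rho_pol R φ P

lemma sub_pow_comm {M N : C} {φ : M ⟶ M} {ψ : N ⟶ N} {u : M ⟶ N} (h : u ≫ ψ = φ ≫ u) (n : ℕ) :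
    (dl R ψ ^ n) ∘ₗ (R.H.map u).hom = (R.H.map u).hom ∘ₗ (dl R φ ^ n) := by
  have h1 : dl R ψ ∘ₗ (R.H.map u).hom = (R.H.map u).hom ∘ₗ dl R φ := by
    ext t
    change (R.H.map ψ).hom ((R.H.map u).hom t) - (R.H.map u).hom t =
      (R.H.map u).hom ((R.H.map φ).hom t - t)
    rw [map_sub, ← map_comp_apply, ← map_comp_apply, h]
  induction n with
  | zero => rw [pow_zero, pow_zero]; rfl
  | succ n ih =>
    have e1 : (dl R ψ ^ (n + 1)) ∘ₗ (R.H.map u).hom =
        dl R ψ ∘ₗ ((dl R ψ ^ n) ∘ₗ (R.H.map u).hom) := by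
      rw [pow_succ']
      rfl
    have e2 : (R.H.map u).hom ∘ₗ (dl R φ ^ (n + 1)) =
        ((R.H.map u).hom ∘ₗ dl R φ) ∘ₗ (dl R φ ^ n) := by
      rw [pow_succ']
      rfl
    rw [e1, ih, e2, ← h1]
    rfl

lemma E1_map {M N : C} {φ : M ⟶ M} {ψ : N ⟶ N} {u : M ⟶ N} (h : u ≫ ψ = φ ≫ u)
    {t : R.H.obj M} (ht : E1 R φ t) : E1 R ψ ((R.H.map u).hom t) := by
  obtain ⟨n, hn⟩ := ht
  refine ⟨n, ?_⟩
  have h1 := LinearMap.congr_fun (sub_pow_comm R h n) t
  simp only [LinearMap.comp_apply] at h1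
  rw [h1, hn, map_zero]

lemma Alg_map {M N : C} (u : M ⟶ N) {t : R.H.obj M} (ht : t ∈ Alg R M) :
    (R.H.map u).hom t ∈ Alg R N := by
  have h1 : Alg R M ≤ (Alg R N).comap (R.H.map u).hom := by
    refine iSup_le fun f => ?_
    rintro _ ⟨s, rfl⟩
    rw [Submodule.mem_comap, ← map_comp_apply]
    exact Submodule.mem_iSup_of_mem (f ≫ u) ⟨s, rfl⟩
  exact h1 ht

lemma Alg'_map {M N : C} (u : M ⟶ N) {l : R.H.obj N →ₗ[K] R.H.obj (𝟙_ C)} (hl : l ∈ Alg' R N) :
    l ∘ₗ (R.H.map u).hom ∈ Alg' R M := by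
  induction hl using Submodule.span_induction with
  | mem l h =>
    obtain ⟨g, rfl⟩ := h
    exact Submodule.subset_span ⟨u ≫ g, map_comp_hom R u g⟩
  | zero => rw [LinearMap.zero_comp]; exact Submodule.zero_mem _
  | add l l' _ _ h1 h2 => rw [LinearMap.add_comp]; exact Submodule.add_mem _ h1 h2
  | smul c l _ h1 => rw [LinearMap.smul_comp]; exact Submodule.smul_mem _ _ h1

/-- The conjecture of Tate is stable under isomorphisms. -/
lemma Tate.of_iso {M N : C} {φ : M ⟶ M} {ψ : N ⟶ N} (i : N ≅ M) (h : i.hom ≫ φ = ψ ≫ i.hom)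
    (hM : Tate R φ) : Tate R ψ := by
  have h' : i.inv ≫ ψ = φ ≫ i.inv := by
    rw [Iso.inv_comp_eq, ← Category.assoc, h, Category.assoc, i.hom_inv_id, Category.comp_id]
  refine ⟨fun t ht => ?_, ?_⟩
  · have h1 : t = (R.H.map i.inv).hom ((R.H.map i.hom).hom t) := by
      rw [← map_comp_apply, i.hom_inv_id, CategoryTheory.Functor.map_id]
      rfl
    rw [h1]
    exact Alg_map R i.inv (hM.1 _ (E1_map R h ht))
  · rintro l ⟨n, hn⟩
    have h1 : l = (l ∘ₗ (R.H.map i.inv).hom) ∘ₗ (R.H.map i.hom).hom := by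
      rw [LinearMap.comp_assoc, ← map_comp_hom, i.hom_inv_id, CategoryTheory.Functor.map_id]
      rfl
    rw [h1]
    refine Alg'_map R i.hom (hM.2 _ ⟨n, ?_⟩)
    rw [LinearMap.comp_assoc, ← sub_pow_comm R h', ← LinearMap.comp_assoc, hn, LinearMap.zero_comp]

lemma Rational.of_iso {M N : C} (i : N ≅ M) (hM : Rational R M) : Rational R N := by
  intro f hf
  have h1 := hM (f ≫ i.hom) (by rw [Functor.map_comp, hf, Limits.zero_comp])
  have h2 : f = (f ≫ i.hom) ≫ i.inv := by rw [Category.assoc, i.hom_inv_id, Category.comp_id]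
  rw [h2, h1, Limits.zero_comp]

variable [HasBinaryBiproducts C]

lemma Tate.sum {M N : C} {φ : M ⟶ M} {ψ : N ⟶ N} {χ : M ⊞ N ⟶ M ⊞ N}
    (h1 : biprod.inl ≫ χ = φ ≫ biprod.inl) (h2 : biprod.inr ≫ χ = ψ ≫ biprod.inr)
    (h3 : biprod.fst ≫ φ = χ ≫ biprod.fst) (h4 : biprod.snd ≫ ψ = χ ≫ biprod.snd)
    (hM : Tate R φ) (hN : Tate R ψ) : Tate R χ := by
  have key : (R.H.map (biprod.inl : M ⟶ M ⊞ N)).hom ∘ₗ (R.H.map (biprod.fst : M ⊞ N ⟶ M)).hom +
      (R.H.map (biprod.inr : N ⟶ M ⊞ N)).hom ∘ₗ (R.H.map (biprod.snd : M ⊞ N ⟶ N)).hom =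
      LinearMap.id := by
    rw [← map_comp_hom, ← map_comp_hom, ← ModuleCat.hom_add, ← Functor.map_add, biprod.total,
      CategoryTheory.Functor.map_id]
    rfl
  refine ⟨fun t ht => ?_, ?_⟩
  · have e1 := LinearMap.congr_fun key t
    rw [LinearMap.add_apply, LinearMap.comp_apply, LinearMap.comp_apply, LinearMap.id_apply] at e1
    rw [← e1]
    exact Submodule.add_mem _ (Alg_map R _ (hM.1 _ (E1_map R h3 ht)))
      (Alg_map R _ (hN.1 _ (E1_map R h4 ht)))
  · rintro l ⟨n, hn⟩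
    have e1 : l = (l ∘ₗ (R.H.map biprod.inl).hom) ∘ₗ (R.H.map biprod.fst).hom +
        (l ∘ₗ (R.H.map biprod.inr).hom) ∘ₗ (R.H.map biprod.snd).hom := by
      rw [LinearMap.comp_assoc, LinearMap.comp_assoc, ← LinearMap.comp_add, key, LinearMap.comp_id]
    rw [e1]
    refine Submodule.add_mem _ (Alg'_map R _ (hM.2 _ ⟨n, ?_⟩)) (Alg'_map R _ (hN.2 _ ⟨n, ?_⟩))
    · rw [LinearMap.comp_assoc, ← sub_pow_comm R h1, ← LinearMap.comp_assoc, hn,
        LinearMap.zero_comp]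
    · rw [LinearMap.comp_assoc, ← sub_pow_comm R h2, ← LinearMap.comp_assoc, hn,
        LinearMap.zero_comp]

lemma Rational.sum {M N : C} (hM : Rational R M) (hN : Rational R N) : Rational R (M ⊞ N) := by
  intro f hf
  have h1 := hM (f ≫ biprod.fst) (by rw [Functor.map_comp, hf, Limits.zero_comp])
  have h2 := hN (f ≫ biprod.snd) (by rw [Functor.map_comp, hf, Limits.zero_comp])
  apply biprod.hom_ext
  · rw [h1, Limits.zero_comp]
  · rw [h2, Limits.zero_comp]

lemma Tate.zero {M : C} (hM : IsZero M) (φ : M ⟶ M) : Tate R φ := by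
  have h0 : (LinearMap.id : R.H.obj M →ₗ[K] R.H.obj M) = 0 := by
    have h1 : 𝟙 M = 0 := hM.eq_of_src _ _
    have h2 : (R.H.map (𝟙 M)).hom = 0 := by rw [h1, Functor.map_zero]; rfl
    rw [CategoryTheory.Functor.map_id] at h2
    exact h2
  refine ⟨fun t _ => ?_, fun l _ => ?_⟩
  · have h1 : t = 0 := LinearMap.congr_fun h0 t
    rw [h1]
    exact Submodule.zero_mem _
  · have h1 : l = l ∘ₗ LinearMap.id := rfl
    rw [h1, h0, LinearMap.comp_zero]
    exact Submodule.zero_mem _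

lemma Rational.zero {M : C} (hM : IsZero M) : Rational R M := fun f _ => hM.eq_of_tgt _ _

end

end Pool.Agent.V8H76.Dg
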