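import Pool.Agent.V8H76.Dg.FrLem

/-!
# Tate classes and degenerate correspondences: main theorem
-/

set_option autoImplicit false
set_option linter.unusedSectionVars false

open CategoryTheory Limits MonoidalCategory Polynomial
open Pool.Agent.Y112.SR Pool.Agent.Y112.KD Pool.Agent.R905 Pool.Agent.N64.AF
open Pool.Agent.Y116.MT (tr)

namespace Pool.Agent.V8H76.Dg

universe v u w x y z

section

variable {C : Type u} [Category.{v} C] [Preadditive C] [Linear ℚ C] [MonoidalCategory C]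
  [MonoidalPreadditive C] [MonoidalLinear ℚ C] [SymmetricCategory C] [RightRigidCategory C]
  {K : Type w} [Field K] [Algebra ℚ K] (R : SuperRealisation C K)

/-- Evaluation of polynomials at one. -/
lemma coprime_of_eval {P : ℚ[X]} (hP : P.eval 1 ≠ 0) (n : ℕ) :
    ∃ a b : ℚ[X], a * P + b * (X - Polynomial.C 1) ^ n = 1 := by
  have h1 : IsCoprime P ((X - Polynomial.C (1 : ℚ)) ^ n) := by
    refine IsCoprime.pow_right ?_
    rw [isCoprime_comm]
    exact ((Polynomial.irreducible_X_sub_C (1 : ℚ)).coprime_iff_not_dvd).2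
      (fun h5 => hP (dvd_iff_isRoot.1 h5))
  exact h1

/-- Polynomials in the endomorphism, on the realisation. -/
noncomputable abbrev ev {M : C} (φ : M ⟶ M) (P : ℚ[X]) : Module.End K (R.H.obj M) :=
  (R.H.map (pol φ P)).hom

lemma ev_add {M : C} (φ : M ⟶ M) (P Q : ℚ[X]) : ev R φ (P + Q) = ev R φ P + ev R φ Q := by
  unfold ev
  rw [pol_add, Functor.map_add, ModuleCat.hom_add]

lemma ev_mul {M : C} (φ : M ⟶ M) (P Q : ℚ[X]) : ev R φ (P * Q) = ev R φ P * ev R φ Q := by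
  unfold ev
  rw [pol_mul, map_comp_hom]
  rfl

lemma ev_one {M : C} (φ : M ⟶ M) : ev R φ 1 = 1 := by
  unfold ev
  rw [pol_one, CategoryTheory.Functor.map_id]
  rfl

lemma ev_lin {M : C} (φ : M ⟶ M) (n : ℕ) : ev R φ ((X - Polynomial.C 1) ^ n) = dl R φ ^ n := by
  induction n with
  | zero => rw [pow_zero, pow_zero, ev_one]
  | succ n ih =>
    rw [pow_succ, ev_mul, ih, pow_succ]
    congr 1
    unfold ev dl
    rw [sub_eq_add_neg, pol_add, pol_X, ← map_neg, pol_C, Functor.map_add, ModuleCat.hom_add,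
      sub_eq_add_neg]
    congr 1
    rw [neg_one_smul, Functor.map_neg, CategoryTheory.Functor.map_id]
    rfl

omit [MonoidalPreadditive C] [MonoidalLinear ℚ C] [SymmetricCategory C] [RightRigidCategory C]
  [MonoidalCategory C] in
lemma pol_id (M : C) (P : ℚ[X]) : pol (𝟙 M) P = P.eval 1 • 𝟙 M := by
  have h2 : ∀ n : ℕ, pol (𝟙 M) (X ^ n : ℚ[X]) = 𝟙 M := by
    intro n
    induction n with
    | zero => rw [pow_zero, pol_one]
    | succ n ih => rw [pow_succ, pol_mul, pol_X, ih, Category.id_comp]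
  induction P using Polynomial.induction_on' with
  | add p q hp hq => rw [pol_add, hp, hq, eval_add, add_smul]
  | monomial n a =>
    rw [← C_mul_X_pow_eq_monomial, pol_mul, pol_C, h2, eval_mul, eval_C, eval_pow, eval_X,
      one_pow, mul_one, Category.id_comp]

variable [HasBinaryBiproducts C]

/-- If `P(φ)`, `P(1) ≠ 0`, factors through an object which satisfies the conjectures, then they hold. -/
lemma good_of_factor {M L : C} {φ : M ⟶ M} {ψ : L ⟶ L} {u : M ⟶ L} {v' : L ⟶ M}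
    (hu : u ≫ ψ = φ ≫ u) (hv : v' ≫ φ = ψ ≫ v') (hφ : ∀ f : 𝟙_ C ⟶ M, f ≫ φ = f)
    {P : ℚ[X]} (hP : P.eval 1 ≠ 0) (h : pol φ P = u ≫ v') (hL : Tate R ψ ∧ Rational R L) :
    Tate R φ ∧ Rational R M := by
  have hR : ev R φ P = (R.H.map v').hom ∘ₗ (R.H.map u).hom := by
    unfold ev
    rw [h, map_comp_hom]
  refine ⟨⟨fun t ht => ?_, ?_⟩, fun f hf => ?_⟩
  · obtain ⟨n, hn⟩ := ht
    obtain ⟨a, b, hab⟩ := coprime_of_eval hP n
    have e1 : t = ev R φ P (ev R φ a t) := by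
      have e2 : ev R φ (a * P + b * (X - Polynomial.C 1) ^ n) t = t := by
        rw [hab, ev_one]
        rfl
      rw [ev_add, LinearMap.add_apply, ev_mul, ev_mul, ev_lin, Module.End.mul_apply,
        Module.End.mul_apply, hn, map_zero, add_zero] at e2
      rw [← Module.End.mul_apply, ← ev_mul, mul_comm, ev_mul, Module.End.mul_apply]
      exact e2.symm
    have e3 : E1 R φ (ev R φ a t) := by
      refine ⟨n, ?_⟩
      rw [← ev_lin, ← Module.End.mul_apply, ← ev_mul, mul_comm, ev_mul, Module.End.mul_apply,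
        ev_lin, hn, map_zero]
    rw [e1, hR, LinearMap.comp_apply]
    exact Alg_map R v' (hL.1.1 _ (E1_map R hu e3))
  · rintro l ⟨n, hn⟩
    obtain ⟨a, b, hab⟩ := coprime_of_eval hP n
    have e1 : l = (l ∘ₗ ev R φ a) ∘ₗ ev R φ P := by
      have e2 : l ∘ₗ ev R φ (P * a + (X - Polynomial.C 1) ^ n * b) = l := by
        rw [mul_comm P a, mul_comm ((X - Polynomial.C 1) ^ n) b, hab, ev_one]
        exact LinearMap.comp_id l
      rw [ev_add, LinearMap.comp_add, ev_mul, ev_mul, ev_lin] at e2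
      have e3 : l ∘ₗ (dl R φ ^ n * ev R φ b) = (l ∘ₗ (dl R φ ^ n)) ∘ₗ ev R φ b := rfl
      rw [e3, hn, LinearMap.zero_comp, add_zero] at e2
      have e4 : ev R φ P * ev R φ a = ev R φ a * ev R φ P := by
        rw [← ev_mul, mul_comm, ev_mul]
      rw [e4] at e2
      exact e2.symm
    have e5 : (l ∘ₗ ev R φ a) ∘ₗ (dl R φ ^ n) = 0 := by
      have e6 : ev R φ a * dl R φ ^ n = dl R φ ^ n * ev R φ a := by
        rw [← ev_lin, ← ev_mul, mul_comm, ev_mul]
      have e7 : (l ∘ₗ ev R φ a) ∘ₗ (dl R φ ^ n) = l ∘ₗ (ev R φ a * dl R φ ^ n) := rfl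
      have e8 : l ∘ₗ (dl R φ ^ n * ev R φ a) = (l ∘ₗ (dl R φ ^ n)) ∘ₗ ev R φ a := rfl
      rw [e7, e6, e8, hn, LinearMap.zero_comp]
    have e9 : l = ((l ∘ₗ ev R φ a) ∘ₗ (R.H.map v').hom) ∘ₗ (R.H.map u).hom := by
      rw [LinearMap.comp_assoc, ← hR]
      exact e1
    rw [e9]
    refine Alg'_map R u (hL.1.2 _ ⟨n, ?_⟩)
    change ((l ∘ₗ ev R φ a) ∘ₗ (R.H.map v').hom) ∘ₗ (dl R ψ ^ n) = 0
    rw [LinearMap.comp_assoc, ← sub_pow_comm R hv, ← LinearMap.comp_assoc, e5,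
      LinearMap.zero_comp]
  · have e1 : f ≫ pol φ P = P.eval 1 • f := by
      have e2 := comp_pol (φ := 𝟙 (𝟙_ C)) (ψ := φ) (u := f) (by rw [hφ, Category.id_comp]) P
      rw [e2, pol_id, Linear.smul_comp, Category.id_comp]
    have e4 : f ≫ u = 0 := hL.2 _ (by rw [Functor.map_comp, hf, Limits.zero_comp])
    have e5 : P.eval 1 • f = 0 := by
      rw [← e1, h, ← Category.assoc, e4, Limits.zero_comp]
    exact (smul_eq_zero.1 e5).resolve_left hP

variable (φ : 𝟭 C ⟶ 𝟭 C)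

lemma nat {M N : C} (u : M ⟶ N) : u ≫ φ.app N = φ.app M ≫ u := φ.naturality u

/-- The two conjectures for an object. -/
def Good (M : C) : Prop := Tate R (φ.app M) ∧ Rational R M

lemma Good.of_iso {M N : C} (i : N ≅ M) (h : Good R φ M) : Good R φ N :=
  ⟨h.1.of_iso R i (nat φ i.hom), h.2.of_iso R i⟩

lemma Good.sum {M N : C} (hM : Good R φ M) (hN : Good R φ N) : Good R φ (M ⊞ N) :=
  ⟨Tate.sum R (nat φ biprod.inl) (nat φ biprod.inr) (nat φ biprod.fst) (nat φ biprod.snd) hM.1 hN.1,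
    Rational.sum R hM.2 hN.2⟩

lemma fix_unit (h1 : φ.app (𝟙_ C) = 𝟙 _) {M : C} (f : 𝟙_ C ⟶ M) : f ≫ φ.app M = f := by
  rw [nat φ f, h1]
  exact Category.id_comp f

end

section

variable {C : Type u} [Category.{v} C] [Preadditive C] [Linear ℚ C] [MonoidalCategory C]
  [MonoidalPreadditive C] [MonoidalLinear ℚ C] [SymmetricCategory C] [RightRigidCategory C]
  {K : Type w} [Field K] [Algebra ℚ K] {R : SuperRealisation C K}

/-- Dual bases modulo numerical equivalence, with the property of generation. -/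
lemma dual_bases' (hR : IsReal ℚ R) (S : C) : ∃ (m : ℕ) (f : Fin m → (𝟙_ C ⟶ S))
    (g : Fin m → (S ⟶ 𝟙_ C)), ∀ a : 𝟙_ C ⟶ S, ∀ β : S ⟶ 𝟙_ C,
      (a - a ≫ ∑ i, g i ≫ f i) ≫ β = 0 := by
  classical
  obtain ⟨τ, hτ, -⟩ := exists_tau hR (𝟙_ C)
  have hun : ∀ a : 𝟙_ C ⟶ 𝟙_ C, a = τ a • 𝟙 (𝟙_ C) := fun a => by
    rw [← hτ a, tr_unit hR]
  have hfin := finite_num hR (𝟙_ C) S
  let L : (S ⟶ 𝟙_ C) →ₗ[ℚ] Module.Dual ℚ ((𝟙_ C ⟶ S) ⧸ numIdeal ℚ (𝟙_ C) S) :=
    { toFun := fun β => (numIdeal ℚ (𝟙_ C) S).liftQ (τ ∘ₗ Linear.rightComp ℚ (𝟙_ C) β) (by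
        intro α hα
        have h1 : α ≫ β = 0 := (numTriv_unit_iff hR α).1 hα β
        change τ (α ≫ β) = 0
        rw [h1, map_zero])
      map_add' := fun β β' => by
        apply Submodule.linearMap_qext
        ext α
        change τ (α ≫ (β + β')) = τ (α ≫ β) + τ (α ≫ β')
        rw [Preadditive.comp_add, map_add]
      map_smul' := fun c β => by
        apply Submodule.linearMap_qext
        ext α
        change τ (α ≫ (c • β)) = c • τ (α ≫ β)
        rw [Linear.comp_smul, map_smul] }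
  have hL : ∀ (α : 𝟙_ C ⟶ S) (β : S ⟶ 𝟙_ C),
      L β ((numIdeal ℚ (𝟙_ C) S).mkQ α) = τ (α ≫ β) := fun _ _ => rfl
  have h1 : (LinearMap.range L).dualCoannihilator = ⊥ := by
    rw [eq_bot_iff]
    intro x hx
    obtain ⟨α, rfl⟩ := (numIdeal ℚ (𝟙_ C) S).mkQ_surjective x
    rw [Submodule.mem_dualCoannihilator] at hx
    rw [Submodule.mem_bot, Submodule.mkQ_apply, Submodule.Quotient.mk_eq_zero]
    refine (numTriv_unit_iff hR α).2 (fun β => ?_)
    have h2 := hx (L β) ⟨β, rfl⟩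
    rw [hL] at h2
    rw [hun (α ≫ β), h2, zero_smul]
  have h2 : LinearMap.range L = ⊤ := by
    have h3 := Subspace.dualCoannihilator_dualAnnihilator_eq (W := LinearMap.range L)
    rw [h1, Submodule.dualAnnihilator_bot] at h3
    exact h3.symm
  let b := Module.finBasis ℚ ((𝟙_ C ⟶ S) ⧸ numIdeal ℚ (𝟙_ C) S)
  choose f hf using fun i => (numIdeal ℚ (𝟙_ C) S).mkQ_surjective (b i)
  have h3 : ∀ i, ∃ β, L β = b.coord i := fun i => by
    have h4 : b.coord i ∈ LinearMap.range L := by rw [h2]; trivial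
    exact h4
  choose g hg using h3
  refine ⟨_, f, g, fun a β => ?_⟩
  have h5 : a ≫ ∑ i, g i ≫ f i = ∑ i, b.coord i ((numIdeal ℚ (𝟙_ C) S).mkQ a) • f i := by
    rw [Preadditive.comp_sum]
    refine Finset.sum_congr rfl fun i _ => ?_
    rw [← Category.assoc, hun (a ≫ g i), ← hL, hg, Linear.smul_comp, Category.id_comp]
  have h6 : (numIdeal ℚ (𝟙_ C) S).mkQ (a - a ≫ ∑ i, g i ≫ f i) = 0 := by
    rw [h5, map_sub, map_sum]
    have h7 : ∀ i, (numIdeal ℚ (𝟙_ C) S).mkQ (b.coord i ((numIdeal ℚ (𝟙_ C) S).mkQ a) • f i) =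
        b.coord i ((numIdeal ℚ (𝟙_ C) S).mkQ a) • b i := fun i => by rw [map_smul, hf]
    simp only [h7]
    have h8 := b.sum_repr ((numIdeal ℚ (𝟙_ C) S).mkQ a)
    simp only [Module.Basis.coord_apply]
    rw [h8, sub_self]
  rw [Submodule.mkQ_apply, Submodule.Quotient.mk_eq_zero] at h6
  exact (numTriv_unit_iff hR _).1 h6 β

end

end Pool.Agent.V8H76.Dg
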