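import Pool.Agent.V8H76.Dg.FrMain

/-!
# Tate classes and degenerate correspondences: the equivalences
-/

set_option autoImplicit false
set_option linter.unusedSectionVars false

open CategoryTheory Limits MonoidalCategory Polynomial
open Pool.Agent.Y112.SR Pool.Agent.Y112.KD Pool.Agent.R905 Pool.Agent.N64.AF
open Pool.Agent.Y116.MT (tr)

namespace Pool.Agent.V8H76.Dg

universe v u w x y z

section

variable {C : Type u} [Category.{v} C] [Preadditive C] [Linear ℚ C] [MonoidalCategory C]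
  [MonoidalPreadditive C] [MonoidalLinear ℚ C] [SymmetricCategory C] [RightRigidCategory C]
  {K : Type w} [Field K] [Algebra ℚ K] {R : SuperRealisation C K}

/-- A non-zero vector is not killed by all functionals with values in the realisation of the unit
object. -/
lemma exists_functional {M : C} {t : R.H.obj M} (ht : t ≠ 0) :
    ∃ μ : R.H.obj M →ₗ[K] R.H.obj (𝟙_ C), μ t ≠ 0 := by
  obtain ⟨ℓ, hℓ⟩ : ∃ ℓ : Module.Dual K (R.H.obj M), ℓ t ≠ 0 := by
    by_contra hcon
    push Not at hcon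
    exact ht ((Module.forall_dual_apply_eq_zero_iff K t).1 hcon)
  have h1 := bt_unit R
  obtain ⟨s, hs⟩ : ∃ s : R.H.obj (𝟙_ C), s ≠ 0 := by
    by_contra hcon
    push Not at hcon
    have h2 : Subsingleton (R.H.obj (𝟙_ C)) := ⟨fun a b => by rw [hcon a, hcon b]⟩
    unfold bt at h1
    rw [Module.finrank_zero_of_subsingleton] at h1
    exact zero_ne_one h1
  refine ⟨ℓ.smulRight s, ?_⟩
  rw [LinearMap.smulRight_apply]
  exact smul_ne_zero hℓ hs

/-- Under the conjecture of Tate for the dual, numerically trivial classes vanish. -/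
lemma num_zero (hR : IsReal ℚ R) {M : C} {φ : M ⟶ M} (hT : Tate R φ) {B : ℚ[X]}
    (hB : B.eval 1 ≠ 0) {s : ℕ} (hχ : R.H.map (pol φ ((X - Polynomial.C 1) ^ s * B)) = 0)
    {α : 𝟙_ C ⟶ M} (hα : α ≫ φ = α) (h0 : ∀ β : M ⟶ 𝟙_ C, α ≫ β = 0) :
    R.H.map α = 0 := by
  by_contra hne
  obtain ⟨t0, ht0⟩ : ∃ t0, (R.H.map α).hom t0 ≠ 0 := by
    by_contra hcon
    push Not at hcon
    exact hne (by ext t; exact hcon t)
  obtain ⟨μ, hμ⟩ := exists_functional ht0
  have h1 : μ ∘ₗ ev R φ B ∈ Alg' R M := by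
    refine hT.2 _ ⟨s, ?_⟩
    have e1 : (μ ∘ₗ ev R φ B) ∘ₗ (dl R φ ^ s) = μ ∘ₗ (ev R φ B * dl R φ ^ s) := rfl
    have e2 : ev R φ ((X - Polynomial.C 1) ^ s * B) = 0 := by
      unfold ev
      rw [hχ]
      rfl
    rw [e1, ← ev_lin, ← ev_mul, mul_comm, e2, LinearMap.comp_zero]
  have h2 : ∀ l ∈ Alg' R M, l ((R.H.map α).hom t0) = 0 := by
    intro l hl
    induction hl using Submodule.span_induction with
    | mem l h =>
      obtain ⟨g, rfl⟩ := h
      change (R.H.map g).hom ((R.H.map α).hom t0) = 0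
      rw [← map_comp_apply, h0 g, Functor.map_zero]
      rfl
    | zero => rfl
    | add l l' _ _ h1 h2 => rw [LinearMap.add_apply, h1, h2, add_zero]
    | smul c l _ h1 => rw [LinearMap.smul_apply, h1, smul_zero]
  have h3 := h2 _ h1
  have h4 : ev R φ B ((R.H.map α).hom t0) = algebraMap ℚ K (B.eval 1) • (R.H.map α).hom t0 := by
    have e1 : α ≫ pol φ B = B.eval 1 • α := by
      rw [comp_pol (φ := 𝟙 (𝟙_ C)) (ψ := φ) (u := α) (by rw [hα, Category.id_comp]) B, pol_id,
        Linear.smul_comp, Category.id_comp]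
    change (R.H.map (pol φ B)).hom ((R.H.map α).hom t0) = _
    rw [← map_comp_apply, e1, hR.lin]
    rfl
  rw [LinearMap.comp_apply, h4, map_smul] at h3
  rcases smul_eq_zero.1 h3 with h5 | h5
  · exact hB (by
      rw [← map_zero (algebraMap ℚ K)] at h5
      exact (algebraMap ℚ K).injective h5)
  · exact hμ h5

/-- The projector to the Tate classes. -/
lemma exists_proj (hR : IsReal ℚ R) {M : C} {φ : M ⟶ M} (hfix : ∀ f : 𝟙_ C ⟶ M, f ≫ φ = f)
    (hT : Tate R φ) {χ : ℚ[X]} (hχ0 : χ ≠ 0) (hχ : R.H.map (pol φ χ) = 0) :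
    ∃ (B : ℚ[X]) (m : ℕ) (f : Fin m → (𝟙_ C ⟶ M)) (g : Fin m → (M ⟶ 𝟙_ C)),
      B.eval 1 ≠ 0 ∧ R.H.map (pol φ B - pol φ B ≫ ∑ i, g i ≫ f i) = 0 := by
  obtain ⟨B, hB, hnd⟩ := Polynomial.exists_eq_pow_rootMultiplicity_mul_and_not_dvd χ hχ0 1
  have hB1 : B.eval 1 ≠ 0 := fun h => hnd (dvd_iff_isRoot.2 h)
  set s := χ.rootMultiplicity 1
  obtain ⟨m, f, g, h⟩ := dual_bases' hR M
  refine ⟨B, m, f, g, hB1, ?_⟩
  set e : M ⟶ M := ∑ i, g i ≫ f i
  have h1 : ∀ a : 𝟙_ C ⟶ M, R.H.map (a - a ≫ e) = 0 := fun a =>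
    num_zero hR hT hB1 (hB ▸ hχ) (hfix _) (h a)
  have h2 : Alg R M ≤ LinearMap.eqLocus (R.H.map e).hom LinearMap.id := by
    refine iSup_le fun a => ?_
    rintro _ ⟨t, rfl⟩
    rw [LinearMap.mem_eqLocus, ← map_comp_apply]
    have h3 := h1 a
    rw [Functor.map_sub, sub_eq_zero] at h3
    rw [← h3]
    rfl
  have h3 : ∀ t, E1 R φ t → (R.H.map e).hom t = t := fun t ht => h2 (hT.1 t ht)
  rw [Functor.map_sub, sub_eq_zero]
  ext t
  rw [map_comp_apply]
  symm
  refine h3 _ ⟨s, ?_⟩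
  change (dl R φ ^ s) (ev R φ B t) = 0
  have e2 : ev R φ ((X - Polynomial.C 1) ^ s * B) = 0 := by
    unfold ev
    rw [← hB, hχ]
    rfl
  rw [← ev_lin, ← Module.End.mul_apply, ← ev_mul, e2]
  rfl

variable [HasBinaryBiproducts C]

lemma degenerate_sum {V : ℕ → ℤ → C → Prop} {d : ℕ} (hz : ∃ Z : C, IsZero Z) {M N : C} {ι : Type*}
    (s : Finset ι) (f : ι → (M ⟶ N)) (h : ∀ i ∈ s, Degenerate V d (f i)) :
    Degenerate V d (∑ i ∈ s, f i) := by
  classical
  induction s using Finset.induction_on with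
  | empty => rw [Finset.sum_empty]; exact degenerate_zero hz
  | insert a s ha ih =>
    rw [Finset.sum_insert ha]
    exact (h a (Finset.mem_insert_self a s)).add
      (ih fun i hi => h i (Finset.mem_insert_of_mem hi))

lemma degenerate_pw {V : ℕ → ℤ → C → Prop} {d : ℕ} (hz : ∃ Z : C, IsZero Z) {M : C}
    {f g : M ⟶ M} (h : Degenerate V d (f - g)) (n : ℕ) : Degenerate V d (pw f n - pw g n) := by
  induction n with
  | zero =>
    change Degenerate V d (𝟙 M - 𝟙 M)
    rw [sub_self]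
    exact degenerate_zero hz
  | succ n ih =>
    have e1 : pw f (n + 1) - pw g (n + 1) = (pw f n - pw g n) ≫ f + pw g n ≫ (f - g) := by
      change pw f n ≫ f - pw g n ≫ g = _
      rw [Preadditive.sub_comp, Preadditive.comp_sub]
      abel
    rw [e1]
    exact (ih.comp_right f).add (h.comp_left _)

variable {φ : 𝟭 C ⟶ 𝟭 C} {D : Varieties.{u, y} C}

lemma degenerate_of {V : ℕ → ℤ → C → Prop} {d : ℕ} (hz : ∃ Z : C, IsZero Z) (hun : Low V d (𝟙_ C))
    {M : C} {ψ : M ⟶ M} {B : ℚ[X]} {m : ℕ} {f : Fin m → (𝟙_ C ⟶ M)} {g : Fin m → (M ⟶ 𝟙_ C)} {n : ℕ}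
    (h : Degenerate V d (pw (pol ψ B - pol ψ B ≫ ∑ i, g i ≫ f i) n)) :
    Degenerate V d (pol ψ (B ^ n)) := by
  rw [pol_pow]
  have h2 : Degenerate V d (∑ i, g i ≫ f i) :=
    degenerate_sum hz _ _ fun i _ => ⟨𝟙_ C, g i, f i, hun, rfl⟩
  have h3 := degenerate_pw hz (f := pol ψ B) (g := pol ψ B - pol ψ B ≫ ∑ i, g i ≫ f i) (by
      rw [sub_sub_cancel]
      exact h2.comp_left _) n
  have h4 := h3.add h
  rwa [sub_add_cancel] at h4

/-- Tate and nilpotence modulo degenerate endomorphisms imply the equations of the Frobenius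
endomorphisms. -/
theorem equation_of (hz : ∃ Z : C, IsZero Z) (hR : IsReal ℚ R) (hF : IsFrobenius D R φ) {X : D.Var}
    (hX : 1 ≤ D.dim X) (hT : ∀ a, Tate R (φ.app (D.h X a))) (h : NilpotentModDegenerate D R X) :
    FrobeniusEquation D φ X := by
  intro a
  obtain ⟨χ, hχ0, hχ⟩ := hF.rational X a
  obtain ⟨B, m, f, g, hB, h1⟩ := exists_proj (M := D.h X a) hR (fun f => fix_unit φ hF.unit f)
    (hT a) hχ0 hχ
  obtain ⟨n, hn⟩ := h a _ h1
  have hun : Low D.V (D.dim X) (𝟙_ C) := by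
    obtain ⟨Z, hZ⟩ := hz
    exact Low.add (𝟙_ C) Z _ 0 0 (by omega) hF.point (Low.zero Z hZ) (isoBiprodZero hZ)
  exact ⟨B ^ n, by rw [eval_pow]; exact pow_ne_zero n hB, degenerate_of hz hun hn⟩

/-- The equality of rational and homological equivalence on all products implies that the
homologically trivial endomorphisms vanish. -/
lemma end_zero {M : C} (h : Rational R (M ⊗ Mᘁ)) {f : M ⟶ M} (hf : R.H.map f = 0) : f = 0 := by
  have h1 : R.H.map (tensorRightHomEquiv (𝟙_ C) M Mᘁ M ((λ_ M).hom ≫ f)) = 0 := by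
    have e1 : tensorRightHomEquiv (𝟙_ C) M Mᘁ M ((λ_ M).hom ≫ f) =
      tensorRightHomEquiv (𝟙_ C) M Mᘁ M ((λ_ M).hom) ≫ (f ▷ Mᘁ) := by
      rw [tensorRightHomEquiv_naturality]
    rw [e1, Functor.map_comp, Functor.Monoidal.map_whiskerRight, hf,
      MonoidalPreadditive.zero_whiskerRight]
    simp
  have h2 := h _ h1
  have h3 : tensorRightHomEquiv (𝟙_ C) M Mᘁ M 0 = 0 := by
    simp [tensorRightHomEquiv]
  have h4 : (λ_ M).hom ≫ f = 0 := (tensorRightHomEquiv (𝟙_ C) M Mᘁ M).injective (by rw [h2, h3])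
  have h5 : f = (λ_ M).inv ≫ (λ_ M).hom ≫ f := by rw [Iso.inv_hom_id_assoc]
  rw [h5, h4, Limits.comp_zero]

/-- Rational and homological equivalence agree on the products of two varieties. -/
lemma end_zero_of (hF : IsFrobenius D R φ) {X : D.Var}
    (h : ∀ Y : D.Var, D.dim Y = D.dim X + D.dim X → TateAndRational D R φ Y) (a : ℤ)
    {f : D.h X a ⟶ D.h X a} (hf : R.H.map f = 0) : f = 0 := by
  refine end_zero ?_ hf
  have h1 : D.V (D.dim X) a (D.h X a) := ⟨X, rfl, ⟨Iso.refl _⟩⟩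
  obtain ⟨Y, hY, ⟨i⟩⟩ := hF.tensor h1 (hF.dual X a)
  exact (h Y hY _).2.of_iso R i

lemma nilpotent_of (hz : ∃ Z : C, IsZero Z) (hF : IsFrobenius D R φ) {X : D.Var}
    (h : ∀ Y : D.Var, D.dim Y = D.dim X + D.dim X → TateAndRational D R φ Y) :
    NilpotentModDegenerate D R X := by
  intro a f hf
  refine ⟨1, ?_⟩
  have h1 : pw f 1 = 0 := by
    rw [end_zero_of hF h a hf]
    exact Limits.comp_zero
  rw [h1]
  exact degenerate_zero hz

/-- An additive functor to the rational vector spaces, on polynomials in an endomorphism which it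
sends to the identity. -/
lemma map_pol_one (F : C ⥤ ModuleCat.{x} ℚ) [F.Additive] {M : C} {ψ : M ⟶ M} (h : F.map ψ = 𝟙 _)
    (P : ℚ[X]) : F.map (pol ψ P) = P.eval 1 • 𝟙 _ := by
  have h2 : ∀ n : ℕ, F.map (pol ψ (X ^ n : ℚ[X])) = 𝟙 _ := by
    intro n
    induction n with
    | zero => rw [pow_zero, pol_one, CategoryTheory.Functor.map_id]
    | succ n ih => rw [pow_succ, pol_mul, pol_X, Functor.map_comp, ih, h, Category.id_comp]
  induction P using Polynomial.induction_on' with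
  | add p q hp hq => rw [pol_add, Functor.map_add, hp, hq, eval_add, add_smul]
  | monomial n a =>
    rw [← C_mul_X_pow_eq_monomial, pol_mul, Functor.map_comp, h2, pol_C, Functor.map_smul,
      CategoryTheory.Functor.map_id, eval_mul, eval_C, eval_pow, eval_X, one_pow, mul_one,
      Category.id_comp]

variable {H : ℕ → C ⥤ ModuleCat.{x} ℚ}

lemma subsingleton_of_iso {M N : C} (i : M ≅ N) {j : ℕ} (h : Subsingleton ((H j).obj N)) :
    Subsingleton ((H j).obj M) := by
  have h1 : IsZero ((H j).obj N) := ModuleCat.isZero_of_subsingleton _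
  exact ModuleCat.subsingleton_of_isZero (h1.of_iso ((H j).mapIso i))

lemma Fine.of_iso {M N : C} (i : N ≅ M) (h : Fine R φ H M) : Fine R φ H N :=
  ⟨Good.of_iso R φ i h.1, fun j hj => subsingleton_of_iso i (h.2 j hj)⟩

lemma Fine.sum (hH : ∀ j, (H j).Additive) {M N : C} (hM : Fine R φ H M) (hN : Fine R φ H N) :
    Fine R φ H (M ⊞ N) := by
  refine ⟨Good.sum R φ hM.1 hN.1, fun j hj => ?_⟩
  have := hH j
  have h1 := hM.2 j hj
  have h2 := hN.2 j hj
  have h3 : IsZero ((H j).obj M) := ModuleCat.isZero_of_subsingleton _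
  have h4 : IsZero ((H j).obj N) := ModuleCat.isZero_of_subsingleton _
  refine ModuleCat.subsingleton_of_isZero ((IsZero.iff_id_eq_zero _).2 ?_)
  rw [← CategoryTheory.Functor.map_id, ← biprod.total, Functor.map_add, Functor.map_comp,
    Functor.map_comp, h3.eq_of_tgt ((H j).map biprod.fst) 0, h4.eq_of_tgt ((H j).map biprod.snd) 0,
    Limits.zero_comp, Limits.zero_comp, add_zero]

lemma Fine.zero (hH : ∀ j, (H j).Additive) {M : C} (hM : IsZero M) : Fine R φ H M := by
  refine ⟨⟨Tate.zero R hM _, Rational.zero R hM⟩, fun j _ => ?_⟩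
  have := hH j
  refine ModuleCat.subsingleton_of_isZero ((IsZero.iff_id_eq_zero _).2 ?_)
  rw [← CategoryTheory.Functor.map_id, hM.eq_of_src (𝟙 M) 0, Functor.map_zero]

lemma Fine.of_factor (hH : ∀ j, (H j).Additive) (h1 : φ.app (𝟙_ C) = 𝟙 _) {M L : C} {u : M ⟶ L}
    {v' : L ⟶ M} {P : ℚ[X]} (hP : P.eval 1 ≠ 0) (h : pol (φ.app M) P = u ≫ v')
    (hw : ∀ j, (H j).map (φ.app M) = 𝟙 _) (hL : Fine R φ H L) : Fine R φ H M := by
  refine ⟨good_of_factor R (nat φ u) (nat φ v') (fun f => fix_unit φ h1 f) hP h hL.1,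
    fun j hj => ?_⟩
  have := hH j
  have h2 := hL.2 j hj
  have h3 : IsZero ((H j).obj L) := ModuleCat.isZero_of_subsingleton _
  have h4 : P.eval 1 • 𝟙 ((H j).obj M) = 0 := by
    have h6 : (H j).map (pol (φ.app M) P) = P.eval 1 • 𝟙 ((H j).obj M) :=
      map_pol_one (M := M) (H j) (ψ := φ.app M) (hw j) P
    have h5 : (H j).map (u ≫ v') = 0 := by
      rw [Functor.map_comp, h3.eq_of_tgt ((H j).map u) 0, Limits.zero_comp]
    rw [← h6, h]
    exact h5
  have h5 : 𝟙 ((H j).obj M) = 0 := (smul_eq_zero.1 h4).resolve_left hP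
  exact ModuleCat.subsingleton_of_isZero ((IsZero.iff_id_eq_zero _).2 h5)

/-- Sums of motives of varieties of dimension smaller than `d`. -/
lemma fine_low (hH : ∀ j, (H j).Additive) {d : ℕ}
    (h : ∀ X : D.Var, D.dim X < d → ∀ a, Fine R φ H (D.h X a)) {L : C} (hL : Low D.V d L) :
    Fine R φ H L := by
  induction hL with
  | zero M h0 => exact Fine.zero hH h0
  | add M N P e a he hM hN i ihN =>
    refine Fine.of_iso i (Fine.sum hH ?_ ihN)
    obtain ⟨X, hX, ⟨j⟩⟩ := hM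
    exact Fine.of_iso j (h X (by omega) a)

/-- The equations of the Frobenius endomorphisms imply the conjectures. -/
theorem fine_all (hF : IsFrobenius D R φ) (hH : IsHigherChow D φ H) (d : ℕ)
    (h : ∀ X : D.Var, 2 ≤ D.dim X → D.dim X ≤ d → FrobeniusEquation D φ X) :
    ∀ (e : ℕ) (X : D.Var), D.dim X = e → e ≤ d → ∀ a, Fine R φ H (D.h X a) := by
  intro e
  induction e using Nat.strong_induction_on with
  | _ e ih =>
    intro X hX he a
    by_cases h2 : 2 ≤ D.dim X
    · obtain ⟨P, hP, L, u, v', hL, h1⟩ := h X h2 (by omega) a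
      refine Fine.of_factor hH.additive hF.unit hP h1 (fun j => hH.weight j X a)
        (fine_low hH.additive (fun Y hY b => ?_) hL)
      exact ih (D.dim Y) (by omega) Y rfl (by omega) b
    · exact ⟨hF.curve X a (by omega), fun j hj => hH.curve j X a hj (by omega)⟩

variable {W : D.Var → ℕ → ℤ → Type z} [∀ X n i, AddCommGroup (W X n i)]

/-- The conjecture of Lichtenbaum and degenerate endomorphisms. -/
theorem lichtenbaum_tfae [IsIdempotentComplete C] (hR : IsReal ℚ R) (hF : IsFrobenius D R φ)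
    (hH : IsHigherChow D φ H) (hW : IsWeilEtale D R φ H W) :
    [Lichtenbaum D W, AllTateAndRational D R φ, TateAndNilpotent D R φ, Equations D φ 2].TFAE := by
  have hz : ∃ Z : C, IsZero Z := exists_isZero (𝟙_ C)
  tfae_have 1 → 2 := fun h X a => hW.cycles X (h X) a
  tfae_have 2 → 3 := fun h X => ⟨fun a => (h X a).1, fun _ => nilpotent_of hz hF fun Y _ => h Y⟩
  tfae_have 3 → 4 := fun h X hX => equation_of hz hR hF (by omega) (h X).1 ((h X).2 hX)
  tfae_have 4 → 1 := fun h X =>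
    hW.fg X (fine_all hF hH (D.dim X) (fun Y hY _ => h Y hY) _ X rfl le_rfl)
  tfae_finish

/-- The conjecture in dimension at most `2 d`, the equations in dimension at most `d`, and the
conjecture in dimension at most `d`. -/
theorem lichtenbaum_dim [IsIdempotentComplete C] (hR : IsReal ℚ R) (hF : IsFrobenius D R φ)
    (hH : IsHigherChow D φ H) (hW : IsWeilEtale D R φ H W) (d : ℕ) :
    (LichtenbaumUpTo D W (2 * d) → EquationsUpTo D φ 1 d) ∧
      (EquationsUpTo D φ 2 d → LichtenbaumUpTo D W d) := by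
  have hz : ∃ Z : C, IsZero Z := exists_isZero (𝟙_ C)
  refine ⟨fun h X hX hd => ?_, fun h X hX => hW.fg X (fine_all hF hH d h _ X rfl hX)⟩
  exact equation_of hz hR hF hX (fun a => (hW.cycles X (h X (by omega)) a).1)
    (nilpotent_of hz hF fun Y hY => hW.cycles Y (h Y (by omega)))

end

end Pool.Agent.V8H76.Dg
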