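import Pool.Agent.V8H76.Dg.Defs
import Mathlib.RingTheory.TwoSidedIdeal.Basic
import Mathlib.RingTheory.Nilpotent.Basic
import Mathlib.CategoryTheory.Idempotents.Basic

/-!
# The ideal of the degenerate morphisms
-/

set_option autoImplicit false
set_option linter.unusedSectionVars false

open CategoryTheory Limits

namespace Pool.Agent.V8H76.Dg

universe v u w

section

variable {C : Type u} [Category.{v} C] [Preadditive C] [HasBinaryBiproducts C]
  {V : ℕ → ℤ → C → Prop} {d : ℕ} {M N P Q : C}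

lemma Low.iso (h : Low V d M) (i : N ≅ M) : Low V d N := by
  cases h with
  | zero _ h => exact Low.zero N (h.of_iso i)
  | add A B _ e a he hA hB j => exact Low.add A B N e a he hA hB (i ≪≫ j)

lemma Low.sum (hM : Low V d M) (hN : Low V d N) : Low V d (M ⊞ N) := by
  induction hM with
  | zero M h => exact hN.iso (isoZeroBiprod h).symm
  | add A B P e a he hA hB j ih =>
    exact Low.add A (B ⊞ N) _ e a he hA ih (biprod.mapIso j (Iso.refl N) ≪≫ biprod.associator A B N)

lemma Low.mono {d' : ℕ} (h : Low V d M) (hd : d ≤ d') : Low V d' M := by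
  induction h with
  | zero M h => exact Low.zero M h
  | add A B P e a he hA hB j ih => exact Low.add A B P e a (by omega) hA ih j

lemma Degenerate.comp_left {f : M ⟶ N} (h : Degenerate V d f) (g : P ⟶ M) :
    Degenerate V d (g ≫ f) := by
  obtain ⟨L, a, b, hL, rfl⟩ := h
  exact ⟨L, g ≫ a, b, hL, by rw [Category.assoc]⟩

lemma Degenerate.comp_right {f : M ⟶ N} (h : Degenerate V d f) (g : N ⟶ P) :
    Degenerate V d (f ≫ g) := by
  obtain ⟨L, a, b, hL, rfl⟩ := h
  exact ⟨L, a, b ≫ g, hL, by rw [Category.assoc]⟩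

lemma Degenerate.add {f g : M ⟶ N} (hf : Degenerate V d f) (hg : Degenerate V d g) :
    Degenerate V d (f + g) := by
  obtain ⟨L, a, b, hL, rfl⟩ := hf
  obtain ⟨L', a', b', hL', rfl⟩ := hg
  exact ⟨L ⊞ L', biprod.lift a a', biprod.desc b b', hL.sum hL', by rw [biprod.lift_desc]⟩

lemma Degenerate.neg {f : M ⟶ N} (hf : Degenerate V d f) : Degenerate V d (-f) := by
  obtain ⟨L, a, b, hL, rfl⟩ := hf
  exact ⟨L, a, -b, hL, by rw [Preadditive.comp_neg]⟩

lemma Degenerate.of_low (hM : Low V d M) (f : M ⟶ N) : Degenerate V d f :=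
  ⟨M, 𝟙 M, f, hM, by rw [Category.id_comp]⟩

lemma Degenerate.to_low (hN : Low V d N) (f : M ⟶ N) : Degenerate V d f :=
  ⟨N, f, 𝟙 N, hN, by rw [Category.comp_id]⟩

/-- The motive with descending twists: sums of objects of `V d a` with increasing `a` and of an
object of smaller dimension. -/
inductive Srt (V : ℕ → ℤ → C → Prop) (d : ℕ) : ℤ → C → Prop
  | low (lb : ℤ) (M : C) (h : Low V d M) : Srt V d lb M
  | cons (lb a : ℤ) (hlb : lb ≤ a) (M N P : C) (hM : V d a M) (hN : Srt V d (a + 1) N)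
      (i : P ≅ M ⊞ N) : Srt V d lb P

lemma Srt.iso {lb : ℤ} (h : Srt V d lb M) (i : N ≅ M) : Srt V d lb N := by
  cases h with
  | low _ _ h => exact Srt.low lb N (h.iso i)
  | cons _ a hlb A B _ hA hB j => exact Srt.cons lb a hlb A B N hA hB (i ≪≫ j)

lemma Srt.mono {lb lb' : ℤ} (h : Srt V d lb M) (hl : lb' ≤ lb) : Srt V d lb' M := by
  cases h with
  | low _ _ h => exact Srt.low lb' M h
  | cons _ a hlb A B _ hA hB j => exact Srt.cons lb' a (hl.trans hlb) A B M hA hB j

/-- Exchange of the first two of three summands. -/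
noncomputable def swp (A B D : C) : A ⊞ (B ⊞ D) ≅ B ⊞ (A ⊞ D) :=
  (biprod.associator A B D).symm ≪≫ biprod.mapIso (biprod.braiding A B) (Iso.refl D) ≪≫
    biprod.associator B A D

lemma Srt.insert (hsum : ∀ {a : ℤ} {M N : C}, V d a M → V d a N → V d a (M ⊞ N)) {a : ℤ}
    (hM : V d a M) {lb : ℤ} (hN : Srt V d lb N) : Srt V d (min lb a) (M ⊞ N) := by
  induction hN with
  | low lb N h =>
    exact Srt.cons _ a (min_le_right _ _) M N _ hM (Srt.low _ N h) (Iso.refl _)
  | cons lb a1 hlb M1 N1 P hM1 hN1 i ih =>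
    rcases lt_trichotomy a a1 with h | h | h
    · exact Srt.cons _ a (min_le_right _ _) M P _ hM
        (Srt.cons (a + 1) a1 (by omega) M1 N1 P hM1 hN1 i) (Iso.refl _)
    · subst h
      exact Srt.cons _ a (min_le_right _ _) (M ⊞ M1) N1 _ (hsum hM hM1) hN1
        (biprod.mapIso (Iso.refl M) i ≪≫ (biprod.associator M M1 N1).symm)
    · refine Srt.cons _ a1 ((min_le_left _ _).trans hlb) M1 (M ⊞ N1) _ hM1 ?_
        (biprod.mapIso (Iso.refl M) i ≪≫ swp M M1 N1)
      exact ih.mono (by omega)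

lemma Srt.addLow (hM : Low V d M) {lb : ℤ} (hN : Srt V d lb N) : Srt V d lb (M ⊞ N) := by
  induction hN with
  | low lb N h => exact Srt.low _ _ (hM.sum h)
  | cons lb a1 hlb M1 N1 P hM1 hN1 i ih =>
    exact Srt.cons _ a1 hlb M1 (M ⊞ N1) _ hM1 ih (biprod.mapIso (Iso.refl M) i ≪≫ swp M M1 N1)

lemma exists_srt (hz : ∃ Z : C, IsZero Z)
    (hsum : ∀ {a : ℤ} {M N : C}, V d a M → V d a N → V d a (M ⊞ N)) (h : Low V (d + 1) M) :
    ∃ lb : ℤ, Srt V d lb M := by
  induction h with
  | zero M h => exact ⟨0, Srt.low 0 M (Low.zero M h)⟩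
  | add A B P e a he hA hB j ih =>
    obtain ⟨lb, h1⟩ := ih
    rcases Nat.lt_succ_iff_lt_or_eq.1 he with h | h
    · obtain ⟨Z, hZ⟩ := hz
      have h2 : Low V d A := Low.add A Z A e a h hA (Low.zero Z hZ) (isoBiprodZero hZ)
      exact ⟨lb, (Srt.addLow h2 h1).iso j⟩
    · subst h
      exact ⟨min lb a, (Srt.insert hsum hA h1).iso j⟩

lemma Srt.degenerate (hsmall : ∀ {a b : ℤ} {M N : C}, V d a M → V d b N → a < b → ∀ f : M ⟶ N,
      Degenerate V d f) {a : ℤ} (hM : V d a M) {lb : ℤ} (hN : Srt V d lb N) (hlb : a < lb)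
    (f : M ⟶ N) : Degenerate V d f := by
  induction hN with
  | low lb N h => exact Degenerate.to_low h f
  | cons lb a1 hlb' M1 N1 P hM1 hN1 i ih =>
    have h1 : f = (f ≫ i.hom ≫ biprod.fst) ≫ biprod.inl ≫ i.inv +
        (f ≫ i.hom ≫ biprod.snd) ≫ biprod.inr ≫ i.inv := by
      have h2 : f = f ≫ i.hom ≫ (biprod.fst ≫ biprod.inl + biprod.snd ≫ biprod.inr) ≫ i.inv := by
        rw [biprod.total, Category.id_comp, i.hom_inv_id, Category.comp_id]
      conv_lhs => rw [h2]
      simp only [Preadditive.add_comp, Preadditive.comp_add, Category.assoc]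
    rw [h1]
    exact ((hsmall hM hM1 (by omega) _).comp_right _).add ((ih (by omega) _).comp_right _)

/-! ### The quotient by the ideal -/

/-- The ideal of the degenerate endomorphisms. -/
def idl (hz : ∃ Z : C, IsZero Z) (V : ℕ → ℤ → C → Prop) (d : ℕ) (M : C) :
    TwoSidedIdeal (End M) :=
  TwoSidedIdeal.mk' {f : End M | Degenerate V d (f : M ⟶ M)}
    (by
      obtain ⟨Z, hZ⟩ := hz
      exact ⟨Z, 0, 0, Low.zero Z hZ, by rw [comp_zero]⟩)
    (fun hf hg => hf.add hg) (fun hf => hf.neg) (fun {f g} hg => hg.comp_right f)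
    (fun {f g} hf => hf.comp_left g)

lemma mem_idl {hz : ∃ Z : C, IsZero Z} {f : End M} : f ∈ idl hz V d M ↔ Degenerate V d (f : M ⟶ M) :=
  TwoSidedIdeal.mem_mk' _ _ _ _ _ _ _

/-- The quotient ring. -/
abbrev Quo (hz : ∃ Z : C, IsZero Z) (V : ℕ → ℤ → C → Prop) (d : ℕ) (M : C) : Type v :=
  (idl hz V d M).ringCon.Quotient

/-- The projection. -/
def qm (hz : ∃ Z : C, IsZero Z) (V : ℕ → ℤ → C → Prop) (d : ℕ) (M : C) :
    End M →+* Quo hz V d M := (idl hz V d M).ringCon.mk'

lemma qm_eq_zero {hz : ∃ Z : C, IsZero Z} {f : End M} :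
    qm hz V d M f = 0 ↔ Degenerate V d (f : M ⟶ M) := by
  rw [← mem_idl (hz := hz), TwoSidedIdeal.mem_iff, ← RingCon.eq]
  exact Iff.rfl

lemma pw_eq (f : M ⟶ M) (n : ℕ) : pw f n = ((show End M from f) ^ n : End M) := by
  induction n with
  | zero => rw [pow_zero]; rfl
  | succ n ih =>
    rw [pow_succ', End.mul_def, ← ih]
    rfl

end

/-! ### Triangular elements -/

section ring

variable {R : Type*} [Ring R]

lemma tri_nil {p q f : R} (h : p + q = 1) (hp : p * p = p) (hq : q * q = q)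
    (hqp : q * p = 0) (hz : q * f * p = 0) {m : ℕ} (hm : 1 ≤ m) (h1 : (p * f * p) ^ m = 0)
    (h2 : (q * f * q) ^ m = 0) : f ^ (2 * m) = 0 := by
  have key : ∀ n : ℕ, p * f ^ (n + 1) * p = (p * f * p) ^ (n + 1) ∧
      q * f ^ (n + 1) * q = (q * f * q) ^ (n + 1) ∧ q * f ^ (n + 1) * p = 0 := by
    intro n
    induction n with
    | zero => simp [hz]
    | succ n ih =>
      obtain ⟨e1, e2, e3⟩ := ih
      refine ⟨?_, ?_, ?_⟩
      · have h3 : p * f ^ (n + 1 + 1) * p = p * f ^ (n + 1) * (p + q) * f * p := by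
          rw [h, mul_one, pow_succ]; noncomm_ring
        have h4 : p * f ^ (n + 1) * (p + q) * f * p =
            (p * f ^ (n + 1) * p) * (p * f * p) + p * f ^ (n + 1) * (q * f * p) := by
          have : p * f ^ (n + 1) * p * (p * f * p) = p * f ^ (n + 1) * (p * p) * f * p := by
            noncomm_ring
          rw [this, hp]; noncomm_ring
        rw [h3, h4, hz, mul_zero, add_zero, e1, ← pow_succ]
      · have h3 : q * f ^ (n + 1 + 1) * q = q * f * (p + q) * f ^ (n + 1) * q := by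
          rw [h, mul_one, pow_succ' f (n + 1)]; noncomm_ring
        have h4 : q * f * (p + q) * f ^ (n + 1) * q =
            (q * f * p) * (f ^ (n + 1) * q) + (q * f * q) * (q * f ^ (n + 1) * q) := by
          have : q * f * q * (q * f ^ (n + 1) * q) = q * f * (q * q) * f ^ (n + 1) * q := by
            noncomm_ring
          rw [this, hq]; noncomm_ring
        rw [h3, h4, hz, zero_mul, zero_add, e2, ← pow_succ']
      · have h3 : q * f ^ (n + 1 + 1) * p = q * f * (p + q) * f ^ (n + 1) * p := by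
          rw [h, mul_one, pow_succ' f (n + 1)]; noncomm_ring
        have h4 : q * f * (p + q) * f ^ (n + 1) * p =
            (q * f * p) * (f ^ (n + 1) * p) + (q * f) * (q * f ^ (n + 1) * p) := by
          have : q * f * (q * f ^ (n + 1) * p) = q * f * q * f ^ (n + 1) * p := by noncomm_ring
          rw [this]; noncomm_ring
        rw [h3, h4, hz, e3, zero_mul, mul_zero, add_zero]
  obtain ⟨n, rfl⟩ : ∃ n, m = n + 1 := ⟨m - 1, by omega⟩
  obtain ⟨e1, e2, e3⟩ := key n
  rw [h1] at e1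
  rw [h2] at e2
  have h3 : f ^ (n + 1) = p * f ^ (n + 1) * q := by
    have h4 : f ^ (n + 1) = (p + q) * f ^ (n + 1) * (p + q) := by rw [h, one_mul, mul_one]
    have h5 : (p + q) * f ^ (n + 1) * (p + q) = p * f ^ (n + 1) * p + p * f ^ (n + 1) * q +
        (q * f ^ (n + 1) * p + q * f ^ (n + 1) * q) := by noncomm_ring
    rw [h5, e1, e2, e3, zero_add, add_zero, add_zero] at h4
    exact h4
  have h4 : p * f ^ (n + 1) * q * (p * f ^ (n + 1) * q) = 0 := by
    have h5 : p * f ^ (n + 1) * q * (p * f ^ (n + 1) * q) =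
        p * f ^ (n + 1) * (q * p) * f ^ (n + 1) * q := by noncomm_ring
    rw [h5, hqp]; simp
  rw [two_mul, pow_add]
  conv_lhs => rw [h3]
  exact h4

lemma tri_idem {p q f : R} (h : p + q = 1) (hqp : q * p = 0) (hf : f * f = f) (h1 : p * f * p = 0)
    (h2 : q * f * q = 0) (hz : q * f * p = 0) : f = 0 := by
  have h3 : f = p * f * q := by
    have h4 : f = (p + q) * f * (p + q) := by rw [h, one_mul, mul_one]
    have h5 : (p + q) * f * (p + q) = p * f * p + p * f * q + (q * f * p + q * f * q) := by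
      noncomm_ring
    rw [h5, h1, h2, hz, zero_add, add_zero, add_zero] at h4
    exact h4
  have h4 : p * f * q * (p * f * q) = 0 := by
    have h5 : p * f * q * (p * f * q) = p * f * (q * p) * f * q := by noncomm_ring
    rw [h5, hqp]; simp
  rw [← h3, hf] at h4
  exact h4

end ring

end Pool.Agent.V8H76.Dg
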