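import Pool.Agent.V8H76.Dg.Ideal
import Pool.Agent.N64.AF.K2

/-!
# Kimura finite-dimensionality and degenerate morphisms
-/

set_option autoImplicit false
set_option linter.unusedSectionVars false

open CategoryTheory Limits MonoidalCategory
open Pool.Agent.Y112.SR Pool.Agent.Y112.KD Pool.Agent.R905 Pool.Agent.N64.AF Pool.Agent.N861.AF

namespace Pool.Agent.V8H76.Dg

universe v u w

section

variable {C : Type u} [Category.{v} C] [Preadditive C] [HasBinaryBiproducts C]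
  {V : ℕ → ℤ → C → Prop} {d : ℕ} {M N P Q : C}

/-- Endomorphisms of a certain kind have degenerate powers. -/
def NilD (T : ∀ {M N : C}, (M ⟶ N) → Prop) (V : ℕ → ℤ → C → Prop) (d : ℕ) (M : C) : Prop :=
  ∀ f : M ⟶ M, T f → ∃ n : ℕ, Degenerate V d (pw f n)

/-- Endomorphisms of a certain kind which are idempotent modulo degenerate ones are degenerate. -/
def IdD (T : ∀ {M N : C}, (M ⟶ N) → Prop) (V : ℕ → ℤ → C → Prop) (d : ℕ) (M : C) : Prop :=
  ∀ f : M ⟶ M, T f → Degenerate V d (f ≫ f - f) → Degenerate V d f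

variable {T : ∀ {M N : C}, (M ⟶ N) → Prop}

lemma e_total (M N : C) : (show End (M ⊞ N) from biprod.fst ≫ biprod.inl) +
    (show End (M ⊞ N) from biprod.snd ≫ biprod.inr) = 1 := biprod.total

lemma pw_corner (g : M ⟶ M) : ∀ n : ℕ,
    pw (biprod.fst ≫ g ≫ biprod.inl : M ⊞ N ⟶ M ⊞ N) (n + 1) =
      biprod.fst ≫ pw g (n + 1) ≫ biprod.inl := by
  intro n
  induction n with
  | zero =>
    change 𝟙 _ ≫ _ = biprod.fst ≫ (𝟙 _ ≫ g) ≫ biprod.inl
    rw [Category.id_comp, Category.id_comp]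
  | succ n ih =>
    change pw (biprod.fst ≫ g ≫ biprod.inl : M ⊞ N ⟶ M ⊞ N) (n + 1) ≫ _ =
      biprod.fst ≫ (pw g (n + 1) ≫ g) ≫ biprod.inl
    rw [ih]
    simp

lemma pw_corner' (g : N ⟶ N) : ∀ n : ℕ,
    pw (biprod.snd ≫ g ≫ biprod.inr : M ⊞ N ⟶ M ⊞ N) (n + 1) =
      biprod.snd ≫ pw g (n + 1) ≫ biprod.inr := by
  intro n
  induction n with
  | zero =>
    change 𝟙 _ ≫ _ = biprod.snd ≫ (𝟙 _ ≫ g) ≫ biprod.inr
    rw [Category.id_comp, Category.id_comp]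
  | succ n ih =>
    change pw (biprod.snd ≫ g ≫ biprod.inr : M ⊞ N ⟶ M ⊞ N) (n + 1) ≫ _ =
      biprod.snd ≫ (pw g (n + 1) ≫ g) ≫ biprod.inr
    rw [ih]
    simp

lemma pw_succ_deg {f : M ⟶ M} {n : ℕ} (h : Degenerate V d (pw f n)) (k : ℕ) :
    Degenerate V d (pw f (n + k)) := by
  induction k with
  | zero => exact h
  | succ k ih => exact ih.comp_right f

lemma qm_mul {hz : ∃ Z : C, IsZero Z} (f g : End M) :
    qm hz V d M f * qm hz V d M g = qm hz V d M (g ≫ f : M ⟶ M) := (map_mul _ _ _).symm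

lemma NilD.sum (hz : ∃ Z : C, IsZero Z)
    (hT : ∀ {M N P Q : C} (f : M ⟶ N) (a : P ⟶ M) (b : N ⟶ Q), T f → T (a ≫ f ≫ b))
    (hM : NilD T V d M) (hN : NilD T V d N) (h : ∀ f : M ⟶ N, Degenerate V d f) :
    NilD T V d (M ⊞ N) := by
  intro f hf
  obtain ⟨n1, h1⟩ := hM (biprod.inl ≫ f ≫ biprod.fst) (hT f _ _ hf)
  obtain ⟨n2, h2⟩ := hN (biprod.inr ≫ f ≫ biprod.snd) (hT f _ _ hf)
  set m := n1 + n2 + 1 with hm
  have h1' : Degenerate V d (pw (biprod.inl ≫ f ≫ biprod.fst) m) := by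
    have := pw_succ_deg h1 (n2 + 1)
    rwa [← add_assoc] at this
  have h2' : Degenerate V d (pw (biprod.inr ≫ f ≫ biprod.snd) m) := by
    have := pw_succ_deg h2 (n1 + 1)
    rwa [show n2 + (n1 + 1) = m by omega] at this
  let π := qm hz V d (M ⊞ N)
  let p : End (M ⊞ N) := biprod.fst ≫ biprod.inl
  let q : End (M ⊞ N) := biprod.snd ≫ biprod.inr
  let F : End (M ⊞ N) := f
  have hpq : p + q = 1 := e_total M N
  have hpp : p * p = p := by
    change (biprod.fst ≫ biprod.inl : M ⊞ N ⟶ M ⊞ N) ≫ biprod.fst ≫ biprod.inl = _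
    simp [p]
  have hqq : q * q = q := by
    change (biprod.snd ≫ biprod.inr : M ⊞ N ⟶ M ⊞ N) ≫ biprod.snd ≫ biprod.inr = _
    simp [q]
  have hqp : q * p = 0 := by
    change (biprod.fst ≫ biprod.inl : M ⊞ N ⟶ M ⊞ N) ≫ biprod.snd ≫ biprod.inr = _
    simp
  have hz' : π (q * F * p) = 0 := by
    rw [qm_eq_zero]
    have e1 : ((q * F * p : End (M ⊞ N)) : M ⊞ N ⟶ M ⊞ N) =
        biprod.fst ≫ (biprod.inl ≫ f ≫ biprod.snd) ≫ biprod.inr := by
      change (biprod.fst ≫ biprod.inl : M ⊞ N ⟶ M ⊞ N) ≫ f ≫ biprod.snd ≫ biprod.inr = _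
      simp only [Category.assoc]
    rw [e1]
    exact ((h _).comp_right _).comp_left _
  have k1 : (π (p * F * p)) ^ m = 0 := by
    rw [← map_pow, qm_eq_zero]
    have e1 : ((p * F * p : End (M ⊞ N)) : M ⊞ N ⟶ M ⊞ N) =
        biprod.fst ≫ (biprod.inl ≫ f ≫ biprod.fst) ≫ biprod.inl := by
      change (biprod.fst ≫ biprod.inl : M ⊞ N ⟶ M ⊞ N) ≫ f ≫ biprod.fst ≫ biprod.inl = _
      simp only [Category.assoc]
    have e2 : (((p * F * p) ^ m : End (M ⊞ N)) : M ⊞ N ⟶ M ⊞ N) =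
        pw (biprod.fst ≫ (biprod.inl ≫ f ≫ biprod.fst) ≫ biprod.inl) m := by
      rw [pw_eq, ← e1]
    rw [e2, hm, pw_corner, ← hm]
    exact (h1'.comp_right _).comp_left _
  have k2 : (π (q * F * q)) ^ m = 0 := by
    rw [← map_pow, qm_eq_zero]
    have e1 : ((q * F * q : End (M ⊞ N)) : M ⊞ N ⟶ M ⊞ N) =
        biprod.snd ≫ (biprod.inr ≫ f ≫ biprod.snd) ≫ biprod.inr := by
      change (biprod.snd ≫ biprod.inr : M ⊞ N ⟶ M ⊞ N) ≫ f ≫ biprod.snd ≫ biprod.inr = _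
      simp only [Category.assoc]
    have e2 : (((q * F * q) ^ m : End (M ⊞ N)) : M ⊞ N ⟶ M ⊞ N) =
        pw (biprod.snd ≫ (biprod.inr ≫ f ≫ biprod.snd) ≫ biprod.inr) m := by
      rw [pw_eq, ← e1]
    rw [e2, hm, pw_corner', ← hm]
    exact (h2'.comp_right _).comp_left _
  refine ⟨2 * m, ?_⟩
  rw [pw_eq, ← qm_eq_zero (hz := hz), map_pow]
  refine tri_nil (p := π p) (q := π q) (f := π F) (m := m) ?_ ?_ ?_ ?_ ?_ (by omega) ?_ ?_
  · rw [← map_add, hpq, map_one]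
  · rw [← map_mul, hpp]
  · rw [← map_mul, hqq]
  · rw [← map_mul, hqp, map_zero]
  · rw [← map_mul, ← map_mul, hz']
  · rw [← map_mul, ← map_mul, k1]
  · rw [← map_mul, ← map_mul, k2]

lemma IdD.sum (hz : ∃ Z : C, IsZero Z)
    (hT : ∀ {M N P Q : C} (f : M ⟶ N) (a : P ⟶ M) (b : N ⟶ Q), T f → T (a ≫ f ≫ b))
    (hM : IdD T V d M) (hN : IdD T V d N) (h : ∀ f : M ⟶ N, Degenerate V d f) :
    IdD T V d (M ⊞ N) := by
  intro f hf hff
  have key : f ≫ f = f ≫ biprod.fst ≫ biprod.inl ≫ f + f ≫ biprod.snd ≫ biprod.inr ≫ f := by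
    have h1 : f ≫ f = f ≫ (biprod.fst ≫ biprod.inl + biprod.snd ≫ biprod.inr) ≫ f := by
      rw [biprod.total, Category.id_comp]
    rw [h1]
    simp only [Preadditive.add_comp, Preadditive.comp_add, Category.assoc]
  have h1 : Degenerate V d (biprod.inl ≫ f ≫ biprod.fst) := by
    refine hM _ (hT f _ _ hf) ?_
    have e1 : (biprod.inl ≫ f ≫ biprod.fst : M ⟶ M) ≫ (biprod.inl ≫ f ≫ biprod.fst) -
        biprod.inl ≫ f ≫ biprod.fst = biprod.inl ≫ (f ≫ f - f) ≫ biprod.fst +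
          -((biprod.inl ≫ f ≫ biprod.snd) ≫ biprod.inr ≫ f ≫ biprod.fst) := by
      rw [key]
      simp only [Preadditive.add_comp, Preadditive.comp_add, Preadditive.sub_comp,
        Preadditive.comp_sub, Category.assoc]
      abel
    rw [e1]
    exact ((hff.comp_right _).comp_left _).add ((h _).comp_right _).neg
  have h2 : Degenerate V d (biprod.inr ≫ f ≫ biprod.snd) := by
    refine hN _ (hT f _ _ hf) ?_
    have e1 : (biprod.inr ≫ f ≫ biprod.snd : N ⟶ N) ≫ (biprod.inr ≫ f ≫ biprod.snd) -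
        biprod.inr ≫ f ≫ biprod.snd = biprod.inr ≫ (f ≫ f - f) ≫ biprod.snd +
          -((biprod.inr ≫ f ≫ biprod.fst) ≫ (biprod.inl ≫ f ≫ biprod.snd)) := by
      rw [key]
      simp only [Preadditive.add_comp, Preadditive.comp_add, Preadditive.sub_comp,
        Preadditive.comp_sub, Category.assoc]
      abel
    rw [e1]
    exact ((hff.comp_right _).comp_left _).add ((h _).comp_left _).neg
  let π := qm hz V d (M ⊞ N)
  let p : End (M ⊞ N) := biprod.fst ≫ biprod.inl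
  let q : End (M ⊞ N) := biprod.snd ≫ biprod.inr
  let F : End (M ⊞ N) := f
  have hpq : p + q = 1 := e_total M N
  have hqp : q * p = 0 := by
    change (biprod.fst ≫ biprod.inl : M ⊞ N ⟶ M ⊞ N) ≫ biprod.snd ≫ biprod.inr = _
    simp
  have hF : π F * π F = π F := by
    rw [← map_mul, ← sub_eq_zero, ← map_sub, qm_eq_zero]
    exact hff
  have h0 : π F = 0 := by
    refine tri_idem (p := π p) (q := π q) ?_ ?_ hF ?_ ?_ ?_
    · rw [← map_add, hpq, map_one]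
    · rw [← map_mul, hqp, map_zero]
    · rw [← map_mul, ← map_mul, qm_eq_zero]
      have e1 : ((p * F * p : End (M ⊞ N)) : M ⊞ N ⟶ M ⊞ N) =
          biprod.fst ≫ (biprod.inl ≫ f ≫ biprod.fst) ≫ biprod.inl := by
        change (biprod.fst ≫ biprod.inl : M ⊞ N ⟶ M ⊞ N) ≫ f ≫ biprod.fst ≫ biprod.inl = _
        simp only [Category.assoc]
      rw [e1]
      exact (h1.comp_right _).comp_left _
    · rw [← map_mul, ← map_mul, qm_eq_zero]
      have e1 : ((q * F * q : End (M ⊞ N)) : M ⊞ N ⟶ M ⊞ N) =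
          biprod.snd ≫ (biprod.inr ≫ f ≫ biprod.snd) ≫ biprod.inr := by
        change (biprod.snd ≫ biprod.inr : M ⊞ N ⟶ M ⊞ N) ≫ f ≫ biprod.snd ≫ biprod.inr = _
        simp only [Category.assoc]
      rw [e1]
      exact (h2.comp_right _).comp_left _
    · rw [← map_mul, ← map_mul, qm_eq_zero]
      have e1 : ((q * F * p : End (M ⊞ N)) : M ⊞ N ⟶ M ⊞ N) =
          biprod.fst ≫ (biprod.inl ≫ f ≫ biprod.snd) ≫ biprod.inr := by
        change (biprod.fst ≫ biprod.inl : M ⊞ N ⟶ M ⊞ N) ≫ f ≫ biprod.snd ≫ biprod.inr = _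
        simp only [Category.assoc]
      rw [e1]
      exact ((h _).comp_right _).comp_left _
  exact qm_eq_zero.1 h0

/-- Transport along isomorphisms. -/
lemma pw_iso (i : N ≅ M) (f : N ⟶ N) : ∀ n : ℕ, pw (i.inv ≫ f ≫ i.hom) n =
    i.inv ≫ pw f n ≫ i.hom := by
  intro n
  induction n with
  | zero =>
    change 𝟙 _ = i.inv ≫ 𝟙 _ ≫ i.hom
    simp
  | succ n ih =>
    change pw (i.inv ≫ f ≫ i.hom) n ≫ _ = i.inv ≫ (pw f n ≫ f) ≫ i.hom
    rw [ih]
    simp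

lemma NilD.iso (hT : ∀ {M N P Q : C} (f : M ⟶ N) (a : P ⟶ M) (b : N ⟶ Q), T f → T (a ≫ f ≫ b))
    (hM : NilD T V d M) (i : N ≅ M) : NilD T V d N := by
  intro f hf
  obtain ⟨n, hn⟩ := hM (i.inv ≫ f ≫ i.hom) (hT f _ _ hf)
  refine ⟨n, ?_⟩
  have h1 : pw f n = i.hom ≫ pw (i.inv ≫ f ≫ i.hom) n ≫ i.inv := by
    rw [pw_iso]
    simp
  rw [h1]
  exact (hn.comp_right _).comp_left _

lemma IdD.iso (hT : ∀ {M N P Q : C} (f : M ⟶ N) (a : P ⟶ M) (b : N ⟶ Q), T f → T (a ≫ f ≫ b))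
    (hM : IdD T V d M) (i : N ≅ M) : IdD T V d N := by
  intro f hf hff
  have h1 : Degenerate V d (i.inv ≫ f ≫ i.hom) := by
    refine hM _ (hT f _ _ hf) ?_
    have e1 : (i.inv ≫ f ≫ i.hom) ≫ (i.inv ≫ f ≫ i.hom) - i.inv ≫ f ≫ i.hom =
        i.inv ≫ (f ≫ f - f) ≫ i.hom := by
      simp
    rw [e1]
    exact (hff.comp_right _).comp_left _
  have h2 : f = i.hom ≫ (i.inv ≫ f ≫ i.hom) ≫ i.inv := by simp
  rw [h2]
  exact (h1.comp_right _).comp_left _

end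

end Pool.Agent.V8H76.Dg
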